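import Mathlib

/-!
The Wiener algebra of the circle as an abstract Banach algebra: the completion of the Laurent
polynomials with respect to the sum of the absolute values of the coefficients.
-/

set_option autoImplicit false

namespace Q257.WA

section Laurent

/-- Laurent polynomials -/
abbrev LaG : Type := AddMonoidAlgebra ℂ ℤ

/-- the norm -/
noncomputable def laN (P : LaG) : ℝ := ∑ n ∈ P.coeff.support, ‖P.coeff n‖

lemma laN_eq_of_subset (P : LaG) (t : Finset ℤ) (h : P.coeff.support ⊆ t) :
    laN P = ∑ n ∈ t, ‖P.coeff n‖ := by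
  unfold laN
  apply Finset.sum_subset h
  intro n _ hn
  rw [Finsupp.notMem_support_iff] at hn
  rw [hn]; simp

lemma laN_zero : laN 0 = 0 := by
  unfold laN; simp

lemma laN_add (P Q : LaG) : laN (P + Q) ≤ laN P + laN Q := by
  classical
  rw [laN_eq_of_subset (P + Q) (P.coeff.support ∪ Q.coeff.support)
      (by rw [AddMonoidAlgebra.coeff_add]; exact Finsupp.support_add),
    laN_eq_of_subset P _ Finset.subset_union_left,
    laN_eq_of_subset Q _ Finset.subset_union_right, ← Finset.sum_add_distrib]
  apply Finset.sum_le_sum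
  intro n _
  rw [AddMonoidAlgebra.coeff_add, Finsupp.add_apply]
  exact norm_add_le _ _

lemma laN_smul (c : ℂ) (P : LaG) : laN (c • P) = ‖c‖ * laN P := by
  rw [laN_eq_of_subset (c • P) P.coeff.support
      (by rw [AddMonoidAlgebra.coeff_smul]; exact Finsupp.support_smul), laN, Finset.mul_sum]
  apply Finset.sum_congr rfl
  intro n _
  rw [AddMonoidAlgebra.coeff_smul, Finsupp.smul_apply, smul_eq_mul, norm_mul]

lemma laN_single (n : ℤ) (c : ℂ) : laN (AddMonoidAlgebra.single n c) = ‖c‖ := by
  rw [laN_eq_of_subset (AddMonoidAlgebra.single n c) {n}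
    (by rw [AddMonoidAlgebra.coeff_single]; exact Finsupp.support_single_subset)]
  rw [Finset.sum_singleton, AddMonoidAlgebra.coeff_single, Finsupp.single_eq_same]

lemma laN_sum {ι : Type} (t : Finset ι) (g : ι → LaG) :
    laN (∑ i ∈ t, g i) ≤ ∑ i ∈ t, laN (g i) := by
  classical
  induction t using Finset.induction_on with
  | empty => simp [laN_zero]
  | insert a t ha ih =>
    rw [Finset.sum_insert ha, Finset.sum_insert ha]
    exact (laN_add _ _).trans (by linarith)

lemma la_eq_sum_single (P : LaG) :
    P = ∑ n ∈ P.coeff.support, AddMonoidAlgebra.single n (P.coeff n) := by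
  conv_lhs => rw [← AddMonoidAlgebra.sum_coeff_single P]
  rfl

lemma laN_mul (P Q : LaG) : laN (P * Q) ≤ laN P * laN Q := by
  classical
  have e : P * Q = ∑ m ∈ P.coeff.support, ∑ n ∈ Q.coeff.support,
      AddMonoidAlgebra.single (m + n) (P.coeff m * Q.coeff n) := by
    conv_lhs => rw [la_eq_sum_single P, la_eq_sum_single Q]
    rw [Finset.sum_mul_sum]
    simp only [AddMonoidAlgebra.single_mul_single]
  rw [e]
  refine (laN_sum _ _).trans ?_
  unfold laN
  rw [Finset.sum_mul_sum]
  apply Finset.sum_le_sum
  intro m _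
  refine (laN_sum _ _).trans ?_
  apply Finset.sum_le_sum
  intro n _
  rw [laN_single, norm_mul]

lemma laN_neg (P : LaG) : laN (-P) = laN P := by
  have := laN_smul (-1) P
  simpa using this

lemma laN_fin (s : Finset ℤ) (c : ℤ → ℂ) :
    laN (∑ n ∈ s, AddMonoidAlgebra.single n (c n)) = ∑ n ∈ s, ‖c n‖ := by
  classical
  have h1 : ∀ k, (∑ n ∈ s, AddMonoidAlgebra.single n (c n) : LaG).coeff k =
      if k ∈ s then c k else 0 := by
    intro k
    have : ∀ t : Finset ℤ, (∑ n ∈ t, AddMonoidAlgebra.single n (c n) : LaG).coeff k =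
        if k ∈ t then c k else 0 := by
      intro t
      induction t using Finset.induction_on with
      | empty => simp
      | insert a t ha ih =>
        rw [Finset.sum_insert ha, AddMonoidAlgebra.coeff_add, Finsupp.add_apply, ih,
          AddMonoidAlgebra.coeff_single, Finsupp.single_apply]
        by_cases hk : a = k
        · subst hk; simp [ha]
        · have hk' : ¬ k = a := fun h => hk h.symm
          simp [hk, hk']
    exact this s
  rw [laN_eq_of_subset _ s]
  · refine Finset.sum_congr rfl fun k hk => ?_
    rw [h1, if_pos hk]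
  · intro k hk
    rw [Finsupp.mem_support_iff, h1] at hk
    by_contra hn
    rw [if_neg hn] at hk
    exact hk rfl

/-- type synonym carrying the norm -/
def LaTy : Type := LaG

noncomputable instance : CommRing LaTy := inferInstanceAs (CommRing LaG)

noncomputable instance : Algebra ℂ LaTy := inferInstanceAs (Algebra ℂ LaG)

/-- the group seminorm -/
noncomputable def laGS : AddGroupSeminorm LaTy where
  toFun := laN
  map_zero' := laN_zero
  add_le' := laN_add
  neg' := laN_neg

noncomputable instance : SeminormedAddCommGroup LaTy :=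
  AddGroupSeminorm.toSeminormedAddCommGroup laGS

noncomputable instance : SeminormedCommRing LaTy :=
  { (inferInstance : SeminormedAddCommGroup LaTy), (inferInstance : CommRing LaTy) with
    norm_mul_le := laN_mul }

noncomputable instance : NormedAlgebra ℂ LaTy :=
  { (inferInstance : Algebra ℂ LaTy) with
    norm_smul_le := fun c P => (laN_smul c P).le }

/-- abstract description of the Wiener algebra -/
structure WAlg (B : Type) [NormedCommRing B] [NormedAlgebra ℂ B] where
  τ : ℤ → B
  τ_zero : τ 0 = 1
  τ_add : ∀ m n, τ (m + n) = τ m * τ n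
  norm_sum : ∀ (s : Finset ℤ) (c : ℤ → ℂ), ‖∑ n ∈ s, c n • τ n‖ = ∑ n ∈ s, ‖c n‖

theorem exists_WAlg : ∃ (B : Type) (_ : NormedCommRing B) (_ : NormedAlgebra ℂ B)
    (_ : CompleteSpace B), Nonempty (WAlg B) := by
  classical
  let B := UniformSpace.Completion LaTy
  let ι : LaG →ₐ[ℂ] B :=
    { (UniformSpace.Completion.coeRingHom : LaTy →+* B) with
      commutes' := fun c => rfl }
  have hnorm : ∀ P : LaG, ‖ι P‖ = laN P := fun P =>
    UniformSpace.Completion.norm_coe (E := LaTy) P
  refine ⟨B, inferInstance, inferInstance, inferInstance, ⟨{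
    τ := fun n => ι (AddMonoidAlgebra.single n 1)
    τ_zero := ?_
    τ_add := ?_
    norm_sum := ?_ }⟩⟩
  · exact map_one ι
  · intro m n
    rw [← map_mul, AddMonoidAlgebra.single_mul_single, one_mul]
  · intro s c
    have : ∑ n ∈ s, c n • ι (AddMonoidAlgebra.single n 1) =
        ι (∑ n ∈ s, AddMonoidAlgebra.single n (c n)) := by
      rw [map_sum]
      refine Finset.sum_congr rfl fun n _ => ?_
      rw [← map_smul, AddMonoidAlgebra.smul_single, smul_eq_mul, mul_one]
    rw [this, hnorm, laN_fin]

end Laurent

end Q257.WA
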