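import Pool.Agent.Q257.WA.Alg

/-!
Characters of the algebra of bounded sequences in the Wiener algebra.
-/

set_option autoImplicit false

namespace Q257.WA

open BoundedContinuousFunction Filter

variable {B : Type} [NormedCommRing B] [NormedAlgebra ℂ B] [CompleteSpace B]

lemma WAlg.norm_tau (w : WAlg B) (n : ℤ) : ‖w.τ n‖ = 1 := by
  have := w.norm_sum {n} (fun _ => 1)
  simpa using this

lemma WAlg.norm_one (w : WAlg B) : ‖(1 : B)‖ = 1 := by
  rw [← w.τ_zero]; exact w.norm_tau 0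

/-- a bounded sequence -/
noncomputable def sq (x : ℕ → B) (C : ℝ) (h : ∀ n, ‖x n‖ ≤ C) : ℕ →ᵇ B :=
  BoundedContinuousFunction.ofNormedAddCommGroupDiscrete x C h

lemma sq_apply (x : ℕ → B) (C : ℝ) (h : ∀ n, ‖x n‖ ≤ C) (n : ℕ) : sq x C h n = x n := rfl

section

variable (w : WAlg B) (Φ : WeakDual.characterSpace ℂ (ℕ →ᵇ B))

include w in
lemma char_le (x : ℕ →ᵇ B) : ‖Φ x‖ ≤ ‖x‖ := by
  have h1 : ‖(1 : ℕ →ᵇ B)‖ = 1 := by
    apply le_antisymm
    · rw [BoundedContinuousFunction.norm_le zero_le_one]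
      intro n
      exact w.norm_one.le
    · rw [← w.norm_one]
      exact (1 : ℕ →ᵇ B).norm_coe_le_norm 0
  have := AlgHom.norm_apply_le_self_mul_norm_one (𝕜 := ℂ) Φ x
  rwa [h1, mul_one] at this

open Classical in
/-- the indicator of a set -/
noncomputable def ind (w : WAlg B) (S : Set ℕ) : ℕ →ᵇ B :=
  sq (fun n => if n ∈ S then (1 : B) else 0) 1 (fun n => by
    split_ifs
    · exact w.norm_one.le
    · simp)

lemma ind_of_mem {S : Set ℕ} {n : ℕ} (h : n ∈ S) : ind w S n = 1 := by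
  unfold ind; rw [sq_apply, if_pos h]

lemma ind_of_notMem {S : Set ℕ} {n : ℕ} (h : n ∉ S) : ind w S n = 0 := by
  unfold ind; rw [sq_apply, if_neg h]

lemma ind_mul (S T : Set ℕ) : ind w S * ind w T = ind w (S ∩ T) := by
  ext n
  rw [BoundedContinuousFunction.mul_apply]
  by_cases hS : n ∈ S
  · by_cases hT : n ∈ T
    · rw [ind_of_mem w hS, ind_of_mem w hT, ind_of_mem w (show n ∈ S ∩ T from ⟨hS, hT⟩), one_mul]
    · rw [ind_of_notMem w hT, ind_of_notMem w (show n ∉ S ∩ T from fun h => hT h.2), mul_zero]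
  · rw [ind_of_notMem w hS, ind_of_notMem w (show n ∉ S ∩ T from fun h => hS h.1), zero_mul]

lemma ind_add_compl (S : Set ℕ) : ind w S + ind w Sᶜ = 1 := by
  ext n
  rw [BoundedContinuousFunction.add_apply]
  by_cases hS : n ∈ S
  · rw [ind_of_mem w hS, ind_of_notMem w (show n ∉ Sᶜ from fun h => h hS), add_zero]; rfl
  · rw [ind_of_notMem w hS, ind_of_mem w (show n ∈ Sᶜ from hS), zero_add]; rfl

lemma ind_univ : ind w Set.univ = 1 := by
  ext n
  rw [ind_of_mem w (Set.mem_univ n)]; rfl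

lemma char_ind (S : Set ℕ) : Φ (ind w S) = 0 ∨ Φ (ind w S) = 1 := by
  have h : Φ (ind w S) * Φ (ind w S) = Φ (ind w S) := by
    rw [← map_mul, ind_mul, Set.inter_self]
  have h2 : Φ (ind w S) * (Φ (ind w S) - 1) = 0 := by rw [mul_sub, h, mul_one, sub_self]
  rcases mul_eq_zero.1 h2 with h3 | h3
  · exact Or.inl h3
  · exact Or.inr (sub_eq_zero.1 h3)

/-- the ultrafilter of a character -/
noncomputable def chF : Filter ℕ where
  sets := {S | Φ (ind w S) = 1}
  univ_sets := by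
    show Φ (ind w Set.univ) = 1
    rw [ind_univ, map_one]
  sets_of_superset := by
    intro S T hS hST
    have hS' : Φ (ind w S) = 1 := hS
    show Φ (ind w T) = 1
    have h : Φ (ind w S) * Φ (ind w T) = Φ (ind w S) := by
      rw [← map_mul, ind_mul, Set.inter_eq_self_of_subset_left hST]
    rw [hS', one_mul] at h
    exact h
  inter_sets := by
    intro S T hS hT
    have hS' : Φ (ind w S) = 1 := hS
    have hT' : Φ (ind w T) = 1 := hT
    show Φ (ind w (S ∩ T)) = 1
    rw [← ind_mul, map_mul, hS', hT', one_mul]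

/-- the ultrafilter of a character -/
noncomputable def chU : Ultrafilter ℕ :=
  Ultrafilter.ofComplNotMemIff (chF w Φ) (by
    intro S
    have h : Φ (ind w S) + Φ (ind w Sᶜ) = 1 := by rw [← map_add, ind_add_compl, map_one]
    show ¬ (Φ (ind w Sᶜ) = 1) ↔ Φ (ind w S) = 1
    constructor
    · intro h1
      rcases char_ind w Φ Sᶜ with h2 | h2
      · rw [h2, add_zero] at h; exact h
      · exact absurd h2 h1
    · intro h1 h2
      rw [h1, h2] at h
      norm_num at h)

lemma mem_chU (S : Set ℕ) : S ∈ chU w Φ ↔ Φ (ind w S) = 1 := Iff.rfl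

/-- bounds along the ultrafilter -/
lemma char_bound (x : ℕ →ᵇ B) (ε : ℝ) (hε : 0 ≤ ε) (h : ∀ᶠ n in (chU w Φ : Filter ℕ), ‖x n‖ ≤ ε) :
    ‖Φ x‖ ≤ ε := by
  have h1 : Φ (ind w {n | ‖x n‖ ≤ ε}) = 1 := h
  have h2 : Φ x = Φ (ind w {n | ‖x n‖ ≤ ε} * x) := by rw [map_mul, h1, one_mul]
  rw [h2]
  refine (char_le w Φ _).trans ?_
  rw [BoundedContinuousFunction.norm_le hε]
  intro n
  rw [BoundedContinuousFunction.mul_apply]
  by_cases hn : n ∈ {n | ‖x n‖ ≤ ε}
  · rw [ind_of_mem w hn, one_mul]; exact hn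
  · rw [ind_of_notMem w hn, zero_mul, norm_zero]; exact hε

lemma char_eq (x y : ℕ →ᵇ B) (h : ∀ᶠ n in (chU w Φ : Filter ℕ), x n = y n) : Φ x = Φ y := by
  have h1 := char_bound w Φ (x - y) 0 le_rfl (by
    filter_upwards [h] with n hn
    rw [BoundedContinuousFunction.sub_apply, hn, sub_self, norm_zero])
  rw [map_sub] at h1
  exact sub_eq_zero.1 (norm_le_zero_iff.1 h1)

/-- a bounded sequence of scalars -/
noncomputable def sc (w : WAlg B) (c : ℕ → ℂ) (C : ℝ) (h : ∀ n, ‖c n‖ ≤ C) : ℕ →ᵇ B :=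
  sq (fun n => c n • (1 : B)) C (fun n => by rw [norm_smul, w.norm_one, mul_one]; exact h n)

/-- the value of a character at a sequence of scalars is the limit -/
lemma char_sc (c : ℕ → ℂ) (C : ℝ) (h : ∀ n, ‖c n‖ ≤ C) (ε : ℝ) (hε : 0 < ε) :
    ∀ᶠ n in (chU w Φ : Filter ℕ), ‖c n - Φ (sc w c C h)‖ ≤ ε := by
  classical
  by_contra hcon
  rw [Filter.not_eventually, Ultrafilter.frequently_iff_eventually] at hcon
  set s := Φ (sc w c C h) with hs
  set S : Set ℕ := {n | ¬ ‖c n - s‖ ≤ ε} with hS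
  have hS1 : Φ (ind w S) = 1 := hcon
  set d : ℕ →ᵇ B := sc w (fun n => if n ∈ S then (c n - s)⁻¹ else 0) (1 / ε) (fun n => by
    split_ifs with hn
    · rw [norm_inv, ← one_div]
      exact one_div_le_one_div_of_le hε (not_le.1 hn).le
    · rw [norm_zero]; positivity) with hd
  have h1 : (sc w c C h - s • (1 : ℕ →ᵇ B)) * d = ind w S := by
    ext n
    rw [BoundedContinuousFunction.mul_apply, BoundedContinuousFunction.sub_apply]
    show (c n • (1 : B) - s • (1 : B)) * ((if n ∈ S then (c n - s)⁻¹ else 0) • (1 : B)) = ind w S n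
    by_cases hn : n ∈ S
    · rw [if_pos hn, ind_of_mem w hn, ← sub_smul, smul_mul_smul_comm, mul_one]
      have : c n - s ≠ 0 := by
        intro h0
        have : ¬ ‖c n - s‖ ≤ ε := hn
        rw [h0, norm_zero] at this
        exact this hε.le
      rw [mul_inv_cancel₀ this, one_smul]
    · rw [if_neg hn, ind_of_notMem w hn, zero_smul, mul_zero]
  have h2 := congrArg Φ h1
  rw [map_mul, map_sub, map_smul, map_one, hS1, ← hs, smul_eq_mul, mul_one, sub_self,
    zero_mul] at h2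
  exact zero_ne_one h2

/-- the sequence of monomials -/
noncomputable def Zm (w : WAlg B) (m : ℕ → ℤ) : ℕ →ᵇ B :=
  sq (fun n => w.τ (m n)) 1 (fun n => (w.norm_tau _).le)

lemma Zm_add (m m' : ℕ → ℤ) : Zm w (m + m') = Zm w m * Zm w m' := by
  ext n
  exact w.τ_add _ _

lemma Zm_zero : Zm w 0 = 1 := by
  ext n
  exact w.τ_zero

/-- the character of the group of sequences of integers -/
noncomputable def chi : Multiplicative (ℕ → ℤ) →* ℂˣ :=
  MonoidHom.toHomUnits
    { toFun := fun m => Φ (Zm w (Multiplicative.toAdd m))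
      map_one' := by
        rw [toAdd_one, Zm_zero, map_one]
      map_mul' := fun m m' => by
        rw [toAdd_mul, Zm_add, map_mul] }

lemma chi_apply (m : ℕ → ℤ) : ((chi w Φ (Multiplicative.ofAdd m) : ℂˣ) : ℂ) = Φ (Zm w m) := rfl

lemma chi_norm (m : ℕ → ℤ) : ‖Φ (Zm w m)‖ = 1 := by
  have h1 : ∀ m : ℕ → ℤ, ‖Φ (Zm w m)‖ ≤ 1 := by
    intro m
    refine (char_le w Φ _).trans ?_
    rw [BoundedContinuousFunction.norm_le zero_le_one]
    intro n
    exact (w.norm_tau _).le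
  have h2 : Φ (Zm w m) * Φ (Zm w (-m)) = 1 := by
    rw [← map_mul, ← Zm_add, add_neg_cancel, Zm_zero, map_one]
  have h3 := congrArg norm h2
  rw [norm_mul, NormOneClass.norm_one] at h3
  nlinarith [h1 m, h1 (-m), norm_nonneg (Φ (Zm w m)), norm_nonneg (Φ (Zm w (-m)))]

lemma chi_prod {K : ℕ} (m : Fin K → ℕ → ℤ) (p : Fin K → ℤ) :
    ∏ j, Φ (Zm w (m j)) ^ p j = Φ (Zm w (∑ j, p j • m j)) := by
  have h1 : chi w Φ (Multiplicative.ofAdd (∑ j, p j • m j)) =
      ∏ j, chi w Φ (Multiplicative.ofAdd (m j)) ^ p j := by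
    rw [ofAdd_sum, map_prod]
    refine Finset.prod_congr rfl fun j _ => ?_
    rw [← map_zpow, ← ofAdd_zsmul]
  have h2 : ((chi w Φ (Multiplicative.ofAdd (∑ j, p j • m j)) : ℂˣ) : ℂ) =
      ((∏ j, chi w Φ (Multiplicative.ofAdd (m j)) ^ p j : ℂˣ) : ℂ) := by rw [h1]
  rw [chi_apply] at h2
  rw [h2, Units.coe_prod]
  refine Finset.prod_congr rfl fun j _ => ?_
  rw [Units.val_zpow_eq_zpow_val]
  rfl

/-- relations -/
lemma chi_rel {K : ℕ} (m : Fin K → ℕ → ℤ) (L : ℕ) :
    ∀ᶠ n in (chU w Φ : Filter ℕ), ∀ p : Fin K → ℤ, (∀ j, |p j| ≤ L) → ∑ j, p j * m j n = 0 →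
      ∏ j, Φ (Zm w (m j)) ^ p j = 1 := by
  classical
  have h1 : ∀ p ∈ Fintype.piFinset (fun _ : Fin K => Finset.Icc (-(L : ℤ)) L),
      ∀ᶠ n in (chU w Φ : Filter ℕ), ∑ j, p j * m j n = 0 → ∏ j, Φ (Zm w (m j)) ^ p j = 1 := by
    intro p _
    by_cases h : ∀ᶠ n in (chU w Φ : Filter ℕ), ∑ j, p j * m j n = 0
    · have h2 : ∏ j, Φ (Zm w (m j)) ^ p j = 1 := by
        rw [chi_prod, ← map_one Φ]
        apply char_eq w Φ
        filter_upwards [h] with n hn
        show w.τ ((∑ j, p j • m j) n) = (1 : B)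
        have : (∑ j, p j • m j) n = 0 := by
          rw [Finset.sum_apply]
          simpa using hn
        rw [this, w.τ_zero]
      exact Filter.Eventually.of_forall fun n _ => h2
    · rw [Filter.not_eventually, Ultrafilter.frequently_iff_eventually] at h
      filter_upwards [h] with n hn h2
      exact absurd h2 hn
  have h2 := (Filter.eventually_all_finset _).2 h1
  filter_upwards [h2] with n hn p hp
  apply hn
  rw [Fintype.mem_piFinset]
  intro j
  rw [Finset.mem_Icc]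
  exact abs_le.1 (hp j)

end

end Q257.WA
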