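import Mathlib

/-!
Points of the circle which are near given points in several characters and at which a polynomial with
small coefficients is small.
-/

set_option autoImplicit false

namespace Q257.WA

open Finset Complex

/-- a primitive root of unity -/
noncomputable def om (M : ℕ) : ℂ := exp (2 * Real.pi * I / M)

lemma om_prim (M : ℕ) (hM : M ≠ 0) : IsPrimitiveRoot (om M) M := Complex.isPrimitiveRoot_exp M hM

lemma om_ne (M : ℕ) : om M ≠ 0 := exp_ne_zero _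

lemma om_norm (M : ℕ) (hM : M ≠ 0) (a : ℕ) : ‖om M ^ a‖ = 1 := by
  rw [norm_pow, (om_prim M hM).norm'_eq_one hM, one_pow]

lemma avg_zpow (M : ℕ) (hM : M ≠ 0) (t : ℤ) :
    ∑ a ∈ range M, (om M ^ a) ^ t = if (M : ℤ) ∣ t then (M : ℂ) else 0 := by
  have h1 : ∀ a ∈ range M, (om M ^ a) ^ t = (om M ^ t) ^ a := by
    intro a _
    rw [← zpow_natCast, ← zpow_mul, ← zpow_natCast, ← zpow_mul, mul_comm]
  rw [sum_congr rfl h1]
  split_ifs with h
  · have : om M ^ t = 1 := ((om_prim M hM).zpow_eq_one_iff_dvd t).2 h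
    rw [this]; simp
  · have h2 : om M ^ t ≠ 1 := fun e => h (((om_prim M hM).zpow_eq_one_iff_dvd t).1 e)
    have h3 : (om M ^ t) ^ M = 1 := by
      rw [← zpow_natCast, ← zpow_mul, mul_comm, zpow_mul, zpow_natCast,
        (om_prim M hM).pow_eq_one, one_zpow]
    rw [geom_sum_eq h2, h3, sub_self, zero_div]

/-- the kernel -/
lemma kern (w : ℂ) (hw : ‖w‖ = 1) (L : ℕ) : ((((1 + w.re) / 2) ^ L : ℝ) : ℂ) =
    ∑ k ∈ range (2 * L + 1), (((Nat.choose (2 * L) k : ℝ) / 4 ^ L : ℝ) : ℂ) * w ^ ((k : ℤ) - L) := by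
  have hw0 : w ≠ 0 := by
    intro h; rw [h] at hw; simp at hw
  have hinv : w⁻¹ = (starRingEnd ℂ) w := by
    rw [Complex.inv_def, Complex.normSq_eq_norm_sq, hw]; simp
  have h1 : (((1 + w.re) / 2 : ℝ) : ℂ) = (1 + w) ^ 2 * w⁻¹ / 4 := by
    have h2 : (1 + w) ^ 2 * w⁻¹ = 2 + w + w⁻¹ := by field_simp; ring
    rw [h2, hinv]
    apply Complex.ext
    · simp; ring
    · simp
  rw [ofReal_pow, h1, div_pow, mul_pow, ← pow_mul, add_comm 1 w, add_pow, sum_mul, sum_div]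
  refine sum_congr rfl fun k _ => ?_
  rw [one_pow, mul_one, zpow_sub₀ hw0, zpow_natCast, zpow_natCast, inv_pow]
  push_cast
  field_simp

lemma norm_sub_sq (w : ℂ) (hw : ‖w‖ = 1) : ‖w - 1‖ ^ 2 = 2 - 2 * w.re := by
  rw [← Complex.normSq_eq_norm_sq, Complex.normSq_apply]
  have h := hw
  rw [← sq_eq_sq₀ (norm_nonneg _) zero_le_one, ← Complex.normSq_eq_norm_sq,
    Complex.normSq_apply] at h
  simp only [sub_re, one_re, sub_im, one_im, sub_zero]
  linarith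

section

variable {K : ℕ} (m : Fin K → ℤ) (ζ : Fin K → ℂ) (L : ℕ)

/-- the weight -/
noncomputable def Wt (z : ℂ) : ℝ := ∏ j, ((1 + (z ^ (m j) * (ζ j)⁻¹).re) / 2) ^ L

lemma sum_Wt (hζ : ∀ j, ‖ζ j‖ = 1)
    (hrel : ∀ p : Fin K → ℤ, (∀ j, |p j| ≤ L) → ∑ j, p j * m j = 0 → ∏ j, ζ j ^ p j = 1)
    (M : ℕ) (hM : (L : ℤ) * ∑ j, |m j| < M) :
    (M : ℝ) * ((Nat.choose (2 * L) L : ℝ) / 4 ^ L) ^ K ≤ ∑ a ∈ range M, Wt m ζ L (om M ^ a) := by
  classical
  have hM0 : M ≠ 0 := by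
    rintro rfl
    have : (0 : ℤ) ≤ L * ∑ j, |m j| := by positivity
    simp only [Nat.cast_zero] at hM
    omega
  have hζ0 : ∀ j, ζ j ≠ 0 := fun j h => by
    have := hζ j; rw [h] at this; simp at this
  set c : ℕ → ℝ := fun k => (Nat.choose (2 * L) k : ℝ) / 4 ^ L with hc
  have hc0 : ∀ k, 0 ≤ c k := fun k => by positivity
  set P := Fintype.piFinset (fun _ : Fin K => range (2 * L + 1)) with hP
  set T : (Fin K → ℕ) → ℤ := fun p => ∑ j, ((p j : ℤ) - L) * m j with hT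
  -- expansion
  have h1 : ∀ a, ((Wt m ζ L (om M ^ a) : ℝ) : ℂ) =
      ∑ p ∈ P, ((∏ j, c (p j) : ℝ) : ℂ) * (∏ j, (ζ j)⁻¹ ^ ((p j : ℤ) - L)) * (om M ^ a) ^ (T p) := by
    intro a
    unfold Wt
    rw [ofReal_prod]
    have h2 : ∀ j : Fin K, ((((1 + ((om M ^ a) ^ (m j) * (ζ j)⁻¹).re) / 2) ^ L : ℝ) : ℂ) =
        ∑ k ∈ range (2 * L + 1), ((c k : ℝ) : ℂ) *
          ((om M ^ a) ^ (m j) * (ζ j)⁻¹) ^ ((k : ℤ) - L) := by
      intro j
      apply kern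
      rw [norm_mul, norm_zpow, om_norm M hM0, one_zpow, norm_inv, hζ, inv_one, mul_one]
    rw [prod_congr rfl (fun j _ => h2 j), Finset.prod_univ_sum]
    refine sum_congr rfl fun p _ => ?_
    rw [hT]
    simp only
    have hz : om M ^ a ≠ 0 := pow_ne_zero _ (om_ne M)
    have h3 : (om M ^ a) ^ (∑ j, ((p j : ℤ) - L) * m j) =
        ∏ j, ((om M ^ a) ^ (m j)) ^ ((p j : ℤ) - L) := by
      have : ∀ s : Finset (Fin K), (om M ^ a) ^ (∑ j ∈ s, ((p j : ℤ) - L) * m j) =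
          ∏ j ∈ s, ((om M ^ a) ^ (m j)) ^ ((p j : ℤ) - L) := by
        intro s
        induction s using Finset.induction_on with
        | empty => simp
        | insert j s hj ih =>
          rw [sum_insert hj, prod_insert hj, zpow_add₀ hz, ih, ← zpow_mul, mul_comm (m j)]
      exact this univ
    rw [h3, ofReal_prod, ← prod_mul_distrib, ← prod_mul_distrib]
    refine prod_congr rfl fun j _ => ?_
    rw [mul_zpow]
    ring
  -- summation
  have h4 : ((∑ a ∈ range M, Wt m ζ L (om M ^ a) : ℝ) : ℂ) =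
      ∑ p ∈ P, ((if T p = 0 then (M : ℝ) * ∏ j, c (p j) else 0 : ℝ) : ℂ) := by
    rw [ofReal_sum, sum_congr rfl (fun a _ => h1 a), sum_comm]
    refine sum_congr rfl fun p hp => ?_
    rw [← mul_sum, avg_zpow M hM0]
    rw [hP, Fintype.mem_piFinset] at hp
    have hpb : ∀ j, |(p j : ℤ) - L| ≤ L := by
      intro j
      have := hp j
      rw [mem_range] at this
      rw [abs_le]
      constructor <;> omega
    have hlt : |T p| < M := by
      refine lt_of_le_of_lt ?_ hM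
      rw [hT]
      simp only
      refine (Finset.abs_sum_le_sum_abs _ _).trans ?_
      rw [mul_sum]
      refine sum_le_sum fun j _ => ?_
      rw [abs_mul]
      exact mul_le_mul_of_nonneg_right (hpb j) (abs_nonneg _)
    by_cases h5 : T p = 0
    · rw [if_pos h5, h5, if_pos (dvd_zero _)]
      have h6 : ∏ j, (ζ j)⁻¹ ^ ((p j : ℤ) - L) = 1 := by
        have h7 := hrel (fun j => (p j : ℤ) - L) hpb h5
        have h8 : ∏ j, (ζ j)⁻¹ ^ ((p j : ℤ) - L) = (∏ j, ζ j ^ ((p j : ℤ) - L))⁻¹ := by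
          rw [← prod_inv_distrib]
          exact prod_congr rfl fun j _ => inv_zpow _ _
        rw [h8, h7, inv_one]
      rw [h6]
      push_cast
      ring
    · rw [if_neg h5, if_neg]
      · simp
      · intro hd
        exact h5 (Int.eq_zero_of_abs_lt_dvd hd hlt)
  have h5 : ∑ a ∈ range M, Wt m ζ L (om M ^ a) =
      ∑ p ∈ P, (if T p = 0 then (M : ℝ) * ∏ j, c (p j) else 0 : ℝ) := by
    rw [← ofReal_sum] at h4
    exact_mod_cast h4
  rw [h5]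
  have hmem : (fun _ : Fin K => L) ∈ P := by
    rw [hP, Fintype.mem_piFinset]
    intro j
    rw [mem_range]; omega
  have h6 := Finset.single_le_sum (f := fun p => (if T p = 0 then (M : ℝ) * ∏ j, c (p j) else 0 : ℝ))
    (fun p _ => by
      split_ifs
      · exact mul_nonneg (Nat.cast_nonneg _) (prod_nonneg fun j _ => hc0 _)
      · exact le_rfl) hmem
  refine le_trans (le_of_eq ?_) h6
  have h7 : T (fun _ => L) = 0 := by rw [hT]; simp
  rw [if_pos h7, prod_const, Finset.card_univ, Fintype.card_fin]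

/-- Parseval -/
lemma parseval (D : ℕ) (c : ℕ → ℂ) (M : ℕ) (hM : D < M) :
    ∑ a ∈ range M, ‖∑ k ∈ range D, c k * (om M ^ a) ^ k‖ ^ 2 = M * ∑ k ∈ range D, ‖c k‖ ^ 2 := by
  have hM0 : M ≠ 0 := by omega
  have h1 : ∀ a, ((‖∑ k ∈ range D, c k * (om M ^ a) ^ k‖ ^ 2 : ℝ) : ℂ) =
      ∑ k ∈ range D, ∑ l ∈ range D, (c k * (starRingEnd ℂ) (c l)) * (om M ^ a) ^ ((k : ℤ) - l) := by
    intro a
    have h2 : ((‖∑ k ∈ range D, c k * (om M ^ a) ^ k‖ ^ 2 : ℝ) : ℂ) =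
        (∑ k ∈ range D, c k * (om M ^ a) ^ k) *
          (starRingEnd ℂ) (∑ k ∈ range D, c k * (om M ^ a) ^ k) := by
      rw [Complex.mul_conj, Complex.normSq_eq_norm_sq]
    rw [h2, map_sum, sum_mul_sum]
    refine sum_congr rfl fun k _ => sum_congr rfl fun l _ => ?_
    have hz : om M ^ a ≠ 0 := pow_ne_zero _ (om_ne M)
    have hinv : (starRingEnd ℂ) (om M ^ a) = (om M ^ a)⁻¹ := by
      rw [Complex.inv_def, Complex.normSq_eq_norm_sq, om_norm M hM0]; simp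
    rw [map_mul, map_pow, hinv, zpow_sub₀ hz, zpow_natCast, zpow_natCast, inv_pow]
    ring
  have h2 : ((∑ a ∈ range M, ‖∑ k ∈ range D, c k * (om M ^ a) ^ k‖ ^ 2 : ℝ) : ℂ) =
      ((M * ∑ k ∈ range D, ‖c k‖ ^ 2 : ℝ) : ℂ) := by
    rw [ofReal_sum, sum_congr rfl (fun a _ => h1 a), sum_comm]
    have h3 : ∀ k ∈ range D, ∑ a ∈ range M, ∑ l ∈ range D,
        (c k * (starRingEnd ℂ) (c l)) * (om M ^ a) ^ ((k : ℤ) - l) = (M : ℂ) * ((‖c k‖ ^ 2 : ℝ) : ℂ) := by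
      intro k hk
      rw [sum_comm, Finset.sum_eq_single k]
      · rw [← mul_sum, avg_zpow M hM0, if_pos (by simp), Complex.mul_conj,
          Complex.normSq_eq_norm_sq]
        ring
      · intro l hl hlk
        rw [← mul_sum, avg_zpow M hM0, if_neg, mul_zero]
        intro hd
        rw [mem_range] at hk hl
        have := Int.eq_zero_of_abs_lt_dvd hd (by rw [abs_lt]; constructor <;> omega)
        omega
      · intro h; exact absurd hk h
    rw [sum_congr rfl h3, ← mul_sum]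
    push_cast
    rfl
  exact_mod_cast h2

theorem finite_claim (hζ : ∀ j, ‖ζ j‖ = 1)
    (hrel : ∀ p : Fin K → ℤ, (∀ j, |p j| ≤ L) → ∑ j, p j * m j = 0 → ∏ j, ζ j ^ p j = 1)
    (D : ℕ) (c : ℕ → ℂ) (η : ℝ) (hc : ∀ k, ‖c k‖ ≤ η) (hs : ∑ k ∈ range D, ‖c k‖ ≤ 1)
    (ε : ℝ) (hε : 0 < ε) (hε1 : ε ≤ 1)
    (hpar : (1 - ε ^ 2 / 4) ^ L + η / ε ^ 2 < ((Nat.choose (2 * L) L : ℝ) / 4 ^ L) ^ K) :
    ∃ z : ℂ, ‖z‖ = 1 ∧ (∀ j, ‖z ^ (m j) - ζ j‖ ≤ ε) ∧ ‖∑ k ∈ range D, c k * z ^ k‖ ≤ ε := by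
  by_contra hcon
  push Not at hcon
  have hζ0 : ∀ j, ζ j ≠ 0 := fun j h => by
    have := hζ j; rw [h] at this; simp at this
  have hη : 0 ≤ η := (norm_nonneg _).trans (hc 0)
  obtain ⟨M, hMd⟩ : ∃ M : ℕ, (M : ℤ) = L * ∑ j, |m j| + D + 1 := by
    have : (0 : ℤ) ≤ L * ∑ j, |m j| + D + 1 := by positivity
    exact ⟨_, Int.toNat_of_nonneg this⟩
  have hM1 : (L : ℤ) * ∑ j, |m j| < M := by omega
  have hM2 : D < M := by
    have : (0 : ℤ) ≤ L * ∑ j, |m j| := by positivity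
    omega
  have hM0 : M ≠ 0 := by omega
  have hMpos : (0 : ℝ) < M := by exact_mod_cast Nat.pos_of_ne_zero hM0
  have h1 := sum_Wt m ζ L hζ hrel M hM1
  have h2 := parseval D c M hM2
  have hq : (0 : ℝ) ≤ 1 - ε ^ 2 / 4 := by nlinarith
  have hfac : ∀ (z : ℂ), ‖z‖ = 1 → ∀ j, 0 ≤ (1 + (z ^ (m j) * (ζ j)⁻¹).re) / 2 ∧
      (1 + (z ^ (m j) * (ζ j)⁻¹).re) / 2 ≤ 1 ∧
      (1 + (z ^ (m j) * (ζ j)⁻¹).re) / 2 = 1 - ‖z ^ (m j) - ζ j‖ ^ 2 / 4 := by
    intro z hz j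
    have hw : ‖z ^ (m j) * (ζ j)⁻¹‖ = 1 := by
      rw [norm_mul, norm_zpow, hz, one_zpow, norm_inv, hζ, inv_one, mul_one]
    have h3 := norm_sub_sq _ hw
    have h4 : ‖z ^ (m j) * (ζ j)⁻¹ - 1‖ = ‖z ^ (m j) - ζ j‖ := by
      have : z ^ (m j) * (ζ j)⁻¹ - 1 = (z ^ (m j) - ζ j) * (ζ j)⁻¹ := by
        rw [sub_mul, mul_inv_cancel₀ (hζ0 j)]
      rw [this, norm_mul, norm_inv, hζ, inv_one, mul_one]
    rw [h4] at h3
    have h5 := Complex.abs_re_le_norm (z ^ (m j) * (ζ j)⁻¹)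
    rw [hw, abs_le] at h5
    refine ⟨by linarith [h5.1], by linarith [h5.2], by linarith⟩
  have h3 : ∀ a ∈ range M, Wt m ζ L (om M ^ a) ≤
      (1 - ε ^ 2 / 4) ^ L + ‖∑ k ∈ range D, c k * (om M ^ a) ^ k‖ ^ 2 / ε ^ 2 := by
    intro a _
    have hz : ‖om M ^ a‖ = 1 := om_norm M hM0 a
    have hf := hfac _ hz
    have hq2 : 0 ≤ (1 - ε ^ 2 / 4) ^ L := pow_nonneg hq L
    by_cases hj : ∃ j, ε < ‖(om M ^ a) ^ (m j) - ζ j‖
    · obtain ⟨j0, hj0⟩ := hj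
      have h4 : Wt m ζ L (om M ^ a) ≤ (1 - ε ^ 2 / 4) ^ L := by
        unfold Wt
        rw [← mul_prod_erase univ _ (mem_univ j0)]
        have h5 : ∏ j ∈ univ.erase j0, ((1 + ((om M ^ a) ^ (m j) * (ζ j)⁻¹).re) / 2) ^ L ≤ 1 :=
          prod_le_one (fun j _ => pow_nonneg (hf j).1 _) (fun j _ => pow_le_one₀ (hf j).1 (hf j).2.1)
        have h6 : ((1 + ((om M ^ a) ^ (m j0) * (ζ j0)⁻¹).re) / 2) ^ L ≤ (1 - ε ^ 2 / 4) ^ L := by
          apply pow_le_pow_left₀ (hf j0).1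
          rw [(hf j0).2.2]
          have : ε ^ 2 ≤ ‖(om M ^ a) ^ (m j0) - ζ j0‖ ^ 2 := pow_le_pow_left₀ hε.le hj0.le 2
          linarith
        calc _ ≤ (1 - ε ^ 2 / 4) ^ L * 1 := mul_le_mul h6 h5
              (prod_nonneg fun j _ => pow_nonneg (hf j).1 _) hq2
          _ = _ := mul_one _
      have : 0 ≤ ‖∑ k ∈ range D, c k * (om M ^ a) ^ k‖ ^ 2 / ε ^ 2 := by positivity
      linarith
    · push Not at hj
      have h4 := hcon _ hz hj
      have h5 : Wt m ζ L (om M ^ a) ≤ 1 := by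
        unfold Wt
        exact prod_le_one (fun j _ => pow_nonneg (hf j).1 _)
          (fun j _ => pow_le_one₀ (hf j).1 (hf j).2.1)
      have h6 : 1 ≤ ‖∑ k ∈ range D, c k * (om M ^ a) ^ k‖ ^ 2 / ε ^ 2 := by
        rw [le_div_iff₀ (by positivity), one_mul]
        exact pow_le_pow_left₀ hε.le h4.le 2
      linarith
  have h4 := sum_le_sum h3
  rw [sum_add_distrib, sum_const, card_range, nsmul_eq_mul, ← sum_div, h2] at h4
  have h5 : ∑ k ∈ range D, ‖c k‖ ^ 2 ≤ η := by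
    calc ∑ k ∈ range D, ‖c k‖ ^ 2 ≤ ∑ k ∈ range D, η * ‖c k‖ := by
          refine sum_le_sum fun k _ => ?_
          rw [sq]
          exact mul_le_mul_of_nonneg_right (hc k) (norm_nonneg _)
      _ = η * ∑ k ∈ range D, ‖c k‖ := by rw [mul_sum]
      _ ≤ η * 1 := mul_le_mul_of_nonneg_left hs hη
      _ = η := mul_one _
  have h6 : (M : ℝ) * ∑ k ∈ range D, ‖c k‖ ^ 2 / ε ^ 2 ≤ M * (η / ε ^ 2) := by
    rw [← sum_div]
    gcongr
  have h7 : (M : ℝ) * ((Nat.choose (2 * L) L : ℝ) / 4 ^ L) ^ K ≤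
      M * ((1 - ε ^ 2 / 4) ^ L + η / ε ^ 2) := by
    refine h1.trans (h4.trans ?_)
    rw [mul_add]
    have : (M : ℝ) * (∑ k ∈ range D, ‖c k‖ ^ 2) / ε ^ 2 ≤ M * (η / ε ^ 2) := by
      rw [mul_div_assoc]
      gcongr
    linarith
  have h8 := le_of_mul_le_mul_left h7 hMpos
  linarith

end

end Q257.WA
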