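import Pool.Agent.Q257.WA.Low

/-!
Taylor coefficients of the reciprocal, and the lower bound.
-/

set_option autoImplicit false

namespace Q257.WA

open Finset Filter

lemma summ_z {a : ℕ → ℂ} (ha : Summable (fun n => ‖a n‖)) {z : ℂ} (hz : ‖z‖ ≤ 1) :
    Summable (fun n => a n * z ^ n) := by
  refine Summable.of_norm_bounded ha fun n => ?_
  rw [norm_mul, norm_pow]
  exact mul_le_of_le_one_right (norm_nonneg _) (pow_le_one₀ (norm_nonneg _) hz)

/-- the Taylor coefficients of the reciprocal -/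
theorem taylor_recip (a b : ℕ → ℂ) (hb : Summable (fun n => ‖b n‖))
    (h : ∀ z : ℂ, ‖z‖ < 1 → (∑' n, a n * z ^ n) * (∑' n, b n * z ^ n) = 1) (n : ℕ) :
    iteratedDeriv n (fun z : ℂ => (∑' k, a k * z ^ k)⁻¹) 0 / n.factorial = b n := by
  have h1 : HasFPowerSeriesAt (fun z : ℂ => (∑' k, a k * z ^ k)⁻¹)
      (FormalMultilinearSeries.ofScalars ℂ b) 0 := by
    rw [hasFPowerSeriesAt_iff']
    have h2 : ∀ᶠ z in nhds (0 : ℂ), ‖z‖ < 1 := by
      filter_upwards [Metric.ball_mem_nhds (0 : ℂ) one_pos] with z hz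
      simpa using hz
    filter_upwards [h2] with z hz
    have h3 := h z hz
    have h4 : (∑' k, a k * z ^ k)⁻¹ = ∑' n, b n * z ^ n := by
      rw [inv_eq_of_mul_eq_one_right h3]
    rw [h4]
    simp only [sub_zero, FormalMultilinearSeries.coeff_ofScalars, smul_eq_mul]
    have h5 := (summ_z hb hz.le).hasSum
    have h6 : (fun n => z ^ n * b n) = fun n => b n * z ^ n := by
      ext n
      exact mul_comm _ _
    rw [h6]
    exact h5
  have h2 := h1.analyticAt.hasFPowerSeriesAt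
  have h3 := h2.eq_formalMultilinearSeries h1
  have h4 := congrArg (fun p => FormalMultilinearSeries.coeff p n) h3
  simpa only [FormalMultilinearSeries.coeff_ofScalars] using h4

lemma summ_z' {a : ℕ → ℂ} (ha : Summable (fun n => ‖a n‖)) {z : ℂ} (hz : ‖z‖ ≤ 1) :
    Summable (fun n => ‖a n * z ^ n‖) := by
  refine Summable.of_nonneg_of_le (fun n => norm_nonneg _) (fun n => ?_) ha
  rw [norm_mul, norm_pow]
  exact mul_le_of_le_one_right (norm_nonneg _) (pow_le_one₀ (norm_nonneg _) hz)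

lemma series_inv {φ ψ : PowerSeries ℂ} (h1 : L1 φ) (h2 : L1 ψ) (h : φ * ψ = 1) {z : ℂ}
    (hz : ‖z‖ ≤ 1) :
    (∑' n, PowerSeries.coeff n φ * z ^ n) * (∑' n, PowerSeries.coeff n ψ * z ^ n) = 1 := by
  rw [tsum_mul_tsum_eq_tsum_sum_antidiagonal_of_summable_norm (summ_z' h1 hz) (summ_z' h2 hz)]
  have h5 : ∀ n, ∑ kl ∈ antidiagonal n, PowerSeries.coeff kl.1 φ * z ^ kl.1 *
      (PowerSeries.coeff kl.2 ψ * z ^ kl.2) = (if n = 0 then 1 else 0) * z ^ n := by
    intro n
    have h6 := congrArg (PowerSeries.coeff n) h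
    rw [PowerSeries.coeff_mul, PowerSeries.coeff_one] at h6
    rw [← h6, sum_mul]
    refine sum_congr rfl fun kl hkl => ?_
    rw [HasAntidiagonal.mem_antidiagonal] at hkl
    rw [← hkl, pow_add]
    ring
  simp only [h5]
  rw [tsum_eq_single 0]
  · simp
  · intro n hn
    rw [if_neg hn, zero_mul]

lemma tsum_poly (p : Polynomial ℂ) (z : ℂ) : ∑' n, p.coeff n * z ^ n = p.eval z := by
  rw [Polynomial.eval_eq_sum_range, tsum_eq_sum (s := range (p.natDegree + 1))]
  intro n hn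
  rw [Finset.mem_range, not_lt] at hn
  rw [Polynomial.coeff_eq_zero_of_natDegree_lt (by omega), zero_mul]

lemma spec_one {A : Type} [NormedRing A] [NormedAlgebra ℂ A] [CompleteSpace A] [Nontrivial A]
    (H : A) (h : ∀ k : ℕ, 1 / 2 ≤ ‖H ^ k‖) : ∃ l ∈ spectrum ℂ H, 1 ≤ ‖l‖ := by
  obtain ⟨l, hl, hl2⟩ := spectrum.exists_nnnorm_eq_spectralRadius H
  refine ⟨l, hl, ?_⟩
  by_contra hcon
  rw [not_le] at hcon
  have h1 := spectrum.pow_norm_pow_one_div_tendsto_nhds_spectralRadius H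
  rw [← hl2] at h1
  obtain ⟨t, ht1, ht2⟩ := exists_between hcon
  have ht0 : 0 < t := lt_of_le_of_lt (norm_nonneg _) ht1
  have h2 : ∀ᶠ k : ℕ in atTop, ENNReal.ofReal (‖H ^ k‖ ^ (1 / k : ℝ)) < ENNReal.ofReal t := by
    apply h1.eventually (gt_mem_nhds _)
    rw [← ENNReal.ofReal_coe_nnreal]
    exact (ENNReal.ofReal_lt_ofReal_iff ht0).2 ht1
  have h3 : Tendsto (fun k : ℕ => t ^ k) atTop (nhds 0) :=
    tendsto_pow_atTop_nhds_zero_of_lt_one ht0.le ht2
  have h4 := h3.eventually (gt_mem_nhds (show (0 : ℝ) < 1 / 2 by norm_num))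
  obtain ⟨k, ⟨hk1, hk2⟩, hk3⟩ := ((h2.and h4).and (eventually_ge_atTop 1)).exists
  have h5 : ‖H ^ k‖ ^ (1 / k : ℝ) < t := (ENNReal.ofReal_lt_ofReal_iff ht0).1 hk1
  have hk0 : (k : ℝ) ≠ 0 := by
    have : 0 < k := hk3
    positivity
  have h6 : ‖H ^ k‖ < t ^ k := by
    have h7 := Real.rpow_lt_rpow (by positivity) h5 (show (0 : ℝ) < k by positivity)
    rwa [← Real.rpow_mul (norm_nonneg _), one_div_mul_cancel hk0, Real.rpow_one,
      Real.rpow_natCast] at h7
  linarith [h k]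

theorem lower (δ : ℝ) (hδ : δ < 1 / 2) (C : ℝ) : ∃ a b : ℕ → ℂ, HasSum (fun n => ‖a n‖) 1 ∧
    (∀ z : ℂ, ‖z‖ < 1 → δ ≤ ‖∑' n, a n * z ^ n‖) ∧ Summable (fun n => ‖b n‖) ∧
    (∀ z : ℂ, ‖z‖ < 1 → (∑' n, a n * z ^ n) * (∑' n, b n * z ^ n) = 1) ∧ C < ∑' n, ‖b n‖ := by
  by_contra hcon
  push Not at hcon
  obtain ⟨B, iR, iA, iC, ⟨w⟩⟩ := exists_WAlg
  have hη : 0 < min (1 - 2 * δ) (1 / 2) := lt_min (by linarith) (by norm_num)
  choose h h0 h1 h2 h3 using fun n => exists_indep w _ hη n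
  set H := sq (fun n => Polynomial.aeval (w.τ 1) (h n)) 1 (fun n => (h1 n).le) with hH
  have hnt : Nontrivial (BoundedContinuousFunction ℕ B) := by
    refine ⟨⟨0, 1, fun h01 => ?_⟩⟩
    have h5 := congrArg (fun x : BoundedContinuousFunction ℕ B => x 0) h01
    have h6 : (0 : B) = 1 := h5
    have h7 := w.norm_one
    rw [← h6, norm_zero] at h7
    exact zero_ne_one h7
  have hpow : ∀ k : ℕ, 1 / 2 ≤ ‖H ^ k‖ := by
    intro k
    refine (h3 k k le_rfl).trans ?_
    have h5 : (Polynomial.aeval (w.τ 1) (h k)) ^ k = (H ^ k) k := by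
      rw [BoundedContinuousFunction.pow_apply]
      rfl
    rw [h5]
    exact (H ^ k).norm_coe_le_norm k
  obtain ⟨l, hl, hl1⟩ := spec_one H hpow
  have hl2 : ‖l‖ ≤ 1 := by
    have h5 := spectrum.norm_le_norm_mul_of_mem hl
    have h6 : ‖H‖ ≤ 1 := by
      rw [BoundedContinuousFunction.norm_le zero_le_one]
      exact fun n => (h1 n).le
    have h7 : ‖(1 : BoundedContinuousFunction ℕ B)‖ ≤ 1 := by
      rw [BoundedContinuousFunction.norm_le zero_le_one]
      exact fun n => w.norm_one.le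
    nlinarith [norm_nonneg H, norm_nonneg (1 : BoundedContinuousFunction ℕ B)]
  have hl3 : ‖l‖ = 1 := le_antisymm hl2 hl1
  have hl0 : l ≠ 0 := by
    rintro rfl
    rw [norm_zero] at hl3
    exact zero_ne_one hl3
  set f : ℕ → Polynomial ℂ := fun n => Polynomial.C (1 / 2) * (1 - Polynomial.C l⁻¹ * h n) with hf
  have hfc : ∀ n k, ‖(f n).coeff k‖ = 1 / 2 * ((if k = 0 then 1 else 0) + ‖(h n).coeff k‖) := by
    intro n k
    rw [hf]
    simp only
    rw [Polynomial.coeff_C_mul, Polynomial.coeff_sub, Polynomial.coeff_C_mul, Polynomial.coeff_one,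
      norm_mul]
    have h5 : ‖(1 / 2 : ℂ)‖ = 1 / 2 := by norm_num
    rw [h5]
    congr 1
    by_cases hk : k = 0
    · rw [hk, h0 n]
      simp
    · simp [hk, hl3]
  have hfsum : ∀ n, HasSum (fun k => ‖(f n).coeff k‖) 1 := by
    intro n
    have h5 : HasSum (fun k => ‖(h n).coeff k‖) 1 := by
      have h6 := (L1_poly (h n)).hasSum
      have h7 := h1 n
      rw [norm_aeval_tau] at h7
      unfold nrm at h7
      rw [h7] at h6
      simpa only [Polynomial.coeff_coe] using h6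
    have h6 : HasSum (fun k : ℕ => if k = 0 then (1 : ℝ) else 0) 1 := hasSum_ite_eq 0 1
    have h7 := (h6.add h5).mul_left (1 / 2)
    simp only [hfc]
    rwa [show (1 / 2 * (1 + 1) : ℝ) = 1 by norm_num] at h7
  have hflow : ∀ n (z : ℂ), ‖z‖ ≤ 1 → max δ (1 / 4) ≤ ‖(f n).eval z‖ := by
    intro n z hz
    rw [hf]
    simp only [Polynomial.eval_mul, Polynomial.eval_sub, Polynomial.eval_C, Polynomial.eval_one]
    rw [norm_mul]
    have h5 : ‖(1 / 2 : ℂ)‖ = 1 / 2 := by norm_num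
    rw [h5]
    have h6 : ‖l⁻¹ * (h n).eval z‖ ≤ min (1 - 2 * δ) (1 / 2) := by
      rw [norm_mul, norm_inv, hl3, inv_one, one_mul]
      exact h2 n z hz
    have h7 := norm_sub_norm_le (1 : ℂ) (l⁻¹ * (h n).eval z)
    rw [norm_one] at h7
    have h8 := min_le_left (1 - 2 * δ) (1 / 2)
    have h9 := min_le_right (1 - 2 * δ) (1 / 2)
    apply max_le <;> linarith
  have hinv : ∀ n, ∃ ψ : PowerSeries ℂ, (f n : PowerSeries ℂ) * ψ = 1 ∧ L1 ψ := fun n =>
    inv_poly (f n) (fun z hz h0 => by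
      have := hflow n z hz
      rw [h0, norm_zero] at this
      have := le_max_right δ (1 / 4)
      linarith)
  choose ψ hψ1 hψ2 using hinv
  have hψ3 : ∀ n, nrm (ψ n) ≤ C := by
    intro n
    apply hcon (fun k => (f n).coeff k) (fun k => PowerSeries.coeff k (ψ n)) (hfsum n) _ (hψ2 n)
    · intro z hz
      have h5 := series_inv (L1_poly (f n)) (hψ2 n) (hψ1 n) hz.le
      simpa only [Polynomial.coeff_coe] using h5
    · intro z hz
      rw [tsum_poly]
      exact (le_max_left _ _).trans (hflow n z hz.le)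
  set G := sq (fun n => emb w (ψ n)) C (fun n => by rw [norm_emb w (hψ2 n)]; exact hψ3 n) with hG
  rw [spectrum.mem_iff] at hl
  apply hl
  have h2l : (2 * l) ≠ 0 := mul_ne_zero two_ne_zero hl0
  have hmul : (algebraMap ℂ (BoundedContinuousFunction ℕ B) l - H) * ((2 * l)⁻¹ • G) = 1 := by
    ext n
    rw [BoundedContinuousFunction.mul_apply, BoundedContinuousFunction.sub_apply]
    show (algebraMap ℂ B l - Polynomial.aeval (w.τ 1) (h n)) * ((2 * l)⁻¹ • emb w (ψ n)) = 1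
    have h5 : emb w (f n : PowerSeries ℂ) * emb w (ψ n) = 1 := by
      rw [← emb_mul w (L1_poly _) (hψ2 n), hψ1 n, emb_one]
    have h6 : emb w (f n : PowerSeries ℂ) = Polynomial.aeval (w.τ 1) (f n) := by
      rw [emb_poly, Polynomial.aeval_eq_sum_range]
      simp only [tau_pow, mul_one]
    rw [h6, hf] at h5
    simp only [map_mul, map_sub, map_one, Polynomial.aeval_C] at h5
    rw [← h5, Algebra.smul_def]
    have h7 : algebraMap ℂ B l * algebraMap ℂ B (2 * l)⁻¹ = algebraMap ℂ B (1 / 2) := by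
      rw [← map_mul]
      congr 1
      field_simp
    have h8 : algebraMap ℂ B (2 * l)⁻¹ = algebraMap ℂ B (1 / 2) * algebraMap ℂ B l⁻¹ := by
      rw [← map_mul]
      congr 1
      field_simp
    linear_combination (emb w (ψ n)) * h7 - (Polynomial.aeval (w.τ 1) (h n) * emb w (ψ n)) * h8
  exact IsUnit.of_mul_eq_one _ hmul

end Q257.WA
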