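import Pool.Agent.Q257.WA.Split

/-!
Power series with absolutely summable coefficients; inverses of polynomials without zeros in the
closed disc; embedding in the Wiener algebra; the uniform bound for polynomials.
-/

set_option autoImplicit false

namespace Q257.WA

open Finset Filter

/-- absolutely summable coefficients -/
def L1 (φ : PowerSeries ℂ) : Prop := Summable (fun n => ‖PowerSeries.coeff n φ‖)

/-- the norm -/
noncomputable def nrm (φ : PowerSeries ℂ) : ℝ := ∑' n, ‖PowerSeries.coeff n φ‖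

lemma L1.mul {φ ψ : PowerSeries ℂ} (h1 : L1 φ) (h2 : L1 ψ) : L1 (φ * ψ) := by
  have := summable_norm_sum_mul_antidiagonal_of_summable_norm h1 h2
  unfold L1
  simpa only [PowerSeries.coeff_mul] using this

lemma L1_poly (p : Polynomial ℂ) : L1 (p : PowerSeries ℂ) := by
  unfold L1
  apply summable_of_ne_finset_zero (s := range (p.natDegree + 1))
  intro n hn
  rw [Finset.mem_range, not_lt] at hn
  rw [Polynomial.coeff_coe, Polynomial.coeff_eq_zero_of_natDegree_lt (by omega), norm_zero]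

lemma nrm_poly (p : Polynomial ℂ) : nrm (p : PowerSeries ℂ) =
    ∑ k ∈ range (p.natDegree + 1), ‖p.coeff k‖ := by
  unfold nrm
  rw [tsum_eq_sum (s := range (p.natDegree + 1))]
  · simp only [Polynomial.coeff_coe]
  · intro n hn
    rw [Finset.mem_range, not_lt] at hn
    rw [Polynomial.coeff_coe, Polynomial.coeff_eq_zero_of_natDegree_lt (by omega), norm_zero]

/-- inverse of a linear factor -/
lemma inv_lin (a : ℂ) (ha : 1 < ‖a‖) :
    ∃ ψ : PowerSeries ℂ, ((Polynomial.X - Polynomial.C a : Polynomial ℂ) : PowerSeries ℂ) * ψ = 1 ∧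
      L1 ψ := by
  have ha0 : a ≠ 0 := by
    rintro rfl
    rw [norm_zero] at ha
    linarith
  refine ⟨PowerSeries.mk (fun n => -(a⁻¹) ^ (n + 1)), ?_, ?_⟩
  · ext n
    rw [Polynomial.coe_sub, Polynomial.coe_X, Polynomial.coe_C, sub_mul, map_sub,
      PowerSeries.coeff_C_mul, PowerSeries.coeff_mk, PowerSeries.coeff_one]
    cases n with
    | zero =>
      rw [PowerSeries.coeff_zero_X_mul]
      simp [ha0]
    | succ n =>
      rw [PowerSeries.coeff_succ_X_mul, PowerSeries.coeff_mk, if_neg (Nat.succ_ne_zero n),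
        pow_succ (a⁻¹) (n + 1)]
      field_simp
      ring
  · unfold L1
    simp only [PowerSeries.coeff_mk]
    have h1 : ‖a⁻¹‖ < 1 := by
      rw [norm_inv]
      exact inv_lt_one_of_one_lt₀ ha
    have h2 := (summable_geometric_of_lt_one (norm_nonneg _) h1).mul_left ‖a⁻¹‖
    refine h2.congr fun n => ?_
    rw [norm_neg, norm_pow, pow_succ, mul_comm]

lemma inv_roots (s : Multiset ℂ) (hs : ∀ a ∈ s, 1 < ‖a‖) : ∃ ψ : PowerSeries ℂ,
    (((s.map (fun a => Polynomial.X - Polynomial.C a)).prod : Polynomial ℂ) : PowerSeries ℂ) * ψ = 1 ∧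
      L1 ψ := by
  induction s using Multiset.induction_on with
  | empty =>
    refine ⟨1, by simp, ?_⟩
    have := L1_poly 1
    rwa [Polynomial.coe_one] at this
  | cons a s ih =>
    obtain ⟨ψ, h1, h2⟩ := ih (fun b hb => hs b (Multiset.mem_cons_of_mem hb))
    obtain ⟨χ, h3, h4⟩ := inv_lin a (hs a (Multiset.mem_cons_self a s))
    refine ⟨χ * ψ, ?_, h4.mul h2⟩
    rw [Multiset.map_cons, Multiset.prod_cons, Polynomial.coe_mul]
    calc _ = (((Polynomial.X - Polynomial.C a : Polynomial ℂ) : PowerSeries ℂ) * χ) *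
        ((((s.map (fun a => Polynomial.X - Polynomial.C a)).prod : Polynomial ℂ) :
          PowerSeries ℂ) * ψ) := by ring
      _ = 1 := by rw [h1, h3, one_mul]

lemma inv_poly (p : Polynomial ℂ) (hp : ∀ z : ℂ, ‖z‖ ≤ 1 → p.eval z ≠ 0) : ∃ ψ : PowerSeries ℂ,
    (p : PowerSeries ℂ) * ψ = 1 ∧ L1 ψ := by
  have hp0 : p ≠ 0 := by
    rintro rfl
    exact hp 0 (by simp) (by simp)
  have hroots : ∀ a ∈ p.roots, 1 < ‖a‖ := by
    intro a ha
    by_contra h
    exact hp a (not_lt.1 h) (Polynomial.isRoot_of_mem_roots ha)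
  obtain ⟨ψ, h1, h2⟩ := inv_roots p.roots hroots
  have hsp := (IsAlgClosed.splits p).eq_prod_roots
  have hl : p.leadingCoeff ≠ 0 := Polynomial.leadingCoeff_ne_zero.2 hp0
  refine ⟨PowerSeries.C p.leadingCoeff⁻¹ * ψ, ?_, ?_⟩
  · have hsp2 : (p : PowerSeries ℂ) = PowerSeries.C p.leadingCoeff *
        (((p.roots.map (fun a => Polynomial.X - Polynomial.C a)).prod : Polynomial ℂ) :
          PowerSeries ℂ) := by
      conv_lhs => rw [hsp]
      rw [Polynomial.coe_mul, Polynomial.coe_C]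
    rw [hsp2]
    calc _ = (PowerSeries.C p.leadingCoeff * PowerSeries.C p.leadingCoeff⁻¹) *
        ((((p.roots.map (fun a => Polynomial.X - Polynomial.C a)).prod : Polynomial ℂ) :
          PowerSeries ℂ) * ψ) := by ring
      _ = 1 := by rw [h1, ← map_mul, mul_inv_cancel₀ hl, map_one, one_mul]
  · apply L1.mul _ h2
    have := L1_poly (Polynomial.C p.leadingCoeff⁻¹)
    rwa [Polynomial.coe_C] at this

section embed

variable {B : Type} [NormedCommRing B] [NormedAlgebra ℂ B] [CompleteSpace B] (w : WAlg B)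

/-- the embedding -/
noncomputable def emb (φ : PowerSeries ℂ) : B := ∑' n, PowerSeries.coeff n φ • w.τ (n : ℤ)

lemma emb_sum_norm {φ : PowerSeries ℂ} (h : L1 φ) :
    Summable (fun n : ℕ => ‖PowerSeries.coeff n φ • w.τ (n : ℤ)‖) := by
  refine h.congr fun n => ?_
  rw [norm_smul, w.norm_tau, mul_one]

lemma norm_emb {φ : PowerSeries ℂ} (h : L1 φ) : ‖emb w φ‖ = nrm φ := by
  have h1 := (emb_sum_norm w h).of_norm.hasSum.tendsto_sum_nat
  have h2 := h1.norm
  simp only [w.norm_sum_nat] at h2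
  exact tendsto_nhds_unique h2 h.hasSum.tendsto_sum_nat

lemma emb_mul {φ ψ : PowerSeries ℂ} (h1 : L1 φ) (h2 : L1 ψ) :
    emb w (φ * ψ) = emb w φ * emb w ψ := by
  unfold emb
  rw [tsum_mul_tsum_eq_tsum_sum_antidiagonal_of_summable_norm (emb_sum_norm w h1)
    (emb_sum_norm w h2)]
  congr 1
  ext n
  rw [PowerSeries.coeff_mul, sum_smul]
  refine sum_congr rfl fun p hp => ?_
  rw [HasAntidiagonal.mem_antidiagonal] at hp
  rw [smul_mul_smul_comm, ← w.τ_add, ← hp]
  push_cast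
  rfl

lemma emb_one : emb w 1 = 1 := by
  unfold emb
  rw [tsum_eq_single 0]
  · simp [w.τ_zero]
  · intro n hn
    rw [PowerSeries.coeff_one, if_neg hn, zero_smul]

lemma emb_poly (p : Polynomial ℂ) : emb w (p : PowerSeries ℂ) =
    ∑ k ∈ range (p.natDegree + 1), p.coeff k • w.τ (k : ℤ) := by
  unfold emb
  rw [tsum_eq_sum (s := range (p.natDegree + 1))]
  · simp only [Polynomial.coeff_coe]
  · intro n hn
    rw [Finset.mem_range, not_lt] at hn
    rw [Polynomial.coeff_coe, Polynomial.coeff_eq_zero_of_natDegree_lt (by omega), zero_smul]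

end embed

/-- the uniform bound for polynomials -/
theorem poly_bound (δ : ℝ) (hδ : 1 / 2 < δ) : ∃ C : ℝ, ∀ p : Polynomial ℂ,
    nrm (p : PowerSeries ℂ) ≤ 1 → (∀ z : ℂ, ‖z‖ ≤ 1 → δ ≤ ‖p.eval z‖) →
    ∃ ψ : PowerSeries ℂ, (p : PowerSeries ℂ) * ψ = 1 ∧ L1 ψ ∧ nrm ψ ≤ C := by
  by_contra hcon
  push Not at hcon
  choose p hp1 hp2 hp3 using fun n : ℕ => hcon n
  have hinv : ∀ n, ∃ ψ : PowerSeries ℂ, (p n : PowerSeries ℂ) * ψ = 1 ∧ L1 ψ := fun n =>
    inv_poly (p n) (fun z hz h0 => by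
      have := hp2 n z hz
      rw [h0, norm_zero] at this
      linarith)
  choose ψ hψ1 hψ2 using hinv
  have hψ3 : ∀ n : ℕ, (n : ℝ) < nrm (ψ n) := fun n => hp3 n (ψ n) (hψ1 n) (hψ2 n)
  obtain ⟨B, iR, iA, iC, ⟨w⟩⟩ := exists_WAlg
  have hb : ∀ n, ‖∑ k ∈ range ((p n).natDegree + 1), (p n).coeff k • w.τ (k : ℤ)‖ ≤ 1 := by
    intro n
    rw [w.norm_sum_nat, ← nrm_poly]
    exact hp1 n
  have hu := unit_of_lower w (fun n => (p n).natDegree + 1) (fun n k => (p n).coeff k)
    (fun n => by rw [← nrm_poly]; exact hp1 n) δ hδ (fun n z hz => by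
      have := hp2 n z hz.le
      rwa [Polynomial.eval_eq_sum_range] at this) hb
  obtain ⟨G, hG⟩ := hu.exists_right_inv
  obtain ⟨n, hn⟩ := exists_nat_gt ‖G‖
  have h1 : emb w (p n : PowerSeries ℂ) * G n = 1 := by
    have h2 := congrArg (fun x : BoundedContinuousFunction ℕ B => x n) hG
    simp only [BoundedContinuousFunction.mul_apply, sq_apply] at h2
    rw [emb_poly]
    exact h2
  have h2 : emb w (p n : PowerSeries ℂ) * emb w (ψ n) = 1 := by
    rw [← emb_mul w (L1_poly _) (hψ2 n), hψ1 n, emb_one]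
  have h3 : G n = emb w (ψ n) := by
    calc G n = (emb w (p n : PowerSeries ℂ) * emb w (ψ n)) * G n := by rw [h2, one_mul]
      _ = (emb w (p n : PowerSeries ℂ) * G n) * emb w (ψ n) := by ring
      _ = emb w (ψ n) := by rw [h1, one_mul]
  have h4 := G.norm_coe_le_norm n
  rw [h3, norm_emb w (hψ2 n)] at h4
  linarith [hψ3 n]

/-- the uniform bound -/
theorem upper (δ : ℝ) (hδ : 1 / 2 < δ) : ∃ C : ℝ, ∀ a : ℕ → ℂ, Summable (fun n => ‖a n‖) →
    ∑' n, ‖a n‖ ≤ 1 → (∀ z : ℂ, ‖z‖ < 1 → δ ≤ ‖∑' n, a n * z ^ n‖) →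
    ∃ b : ℕ → ℂ, (∀ z : ℂ, ‖z‖ < 1 → (∑' n, a n * z ^ n) * (∑' n, b n * z ^ n) = 1) ∧
      Summable (fun n => ‖b n‖) ∧ ∑' n, ‖b n‖ ≤ C := by
  obtain ⟨C, hC⟩ := poly_bound ((δ + 1 / 2) / 2) (by linarith)
  refine ⟨C, fun a ha ha1 hlow => ?_⟩
  set φ : PowerSeries ℂ := PowerSeries.mk a with hφ
  have ha0 : a 0 ≠ 0 := by
    intro h0
    have := hlow 0 (by simp)
    rw [tsum_eq_single 0 (fun n hn => by rw [zero_pow hn, mul_zero])] at this
    rw [h0, zero_mul, norm_zero] at this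
    linarith
  have hinv : φ * φ⁻¹ = 1 := PowerSeries.mul_inv_cancel φ (by
    rw [← PowerSeries.coeff_zero_eq_constantCoeff_apply, PowerSeries.coeff_mk]
    exact ha0)
  have hφL : L1 φ := by
    unfold L1
    simpa only [hφ, PowerSeries.coeff_mk] using ha
  -- truncations
  have htail : ∃ N0 : ℕ, ∀ N ≥ N0, ∑' n, ‖a n‖ - (δ - 1 / 2) / 2 ≤ ∑ n ∈ range N, ‖a n‖ := by
    have h1 := ha.hasSum.tendsto_sum_nat
    have h2 := h1.eventually (lt_mem_nhds (show ∑' n, ‖a n‖ - (δ - 1 / 2) / 2 < ∑' n, ‖a n‖ by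
      linarith))
    obtain ⟨N0, hN0⟩ := eventually_atTop.1 h2
    exact ⟨N0, fun N hN => (hN0 N hN).le⟩
  obtain ⟨N0, hN0⟩ := htail
  have hcoefb : ∀ N ≥ N0, ∑ k ∈ range N, ‖PowerSeries.coeff k φ⁻¹‖ ≤ C := by
    intro N hN
    set p : Polynomial ℂ := PowerSeries.trunc N φ with hp
    have hpc : ∀ k, p.coeff k = if k < N then a k else 0 := by
      intro k
      rw [hp, PowerSeries.coeff_trunc]
      simp [hφ]
    have hev : ∀ z : ℂ, p.eval z = ∑ k ∈ range N, a k * z ^ k := by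
      intro z
      rw [Polynomial.eval_eq_sum_range' (n := N + 1)]
      · rw [sum_range_succ, hpc, if_neg (lt_irrefl _), zero_mul, add_zero]
        refine sum_congr rfl fun k hk => ?_
        rw [hpc, if_pos (mem_range.1 hk)]
      · exact lt_of_le_of_lt (Polynomial.natDegree_le_iff_coeff_eq_zero.2 (fun m hm => by
          rw [hpc, if_neg (by omega)])) (Nat.lt_succ_self N)
    have hpn : nrm (p : PowerSeries ℂ) ≤ 1 := by
      unfold nrm
      rw [tsum_eq_sum (s := range N)]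
      · refine le_trans (le_of_eq ?_) ((ha.sum_le_tsum (range N) (fun _ _ => norm_nonneg _)).trans ha1)
        refine sum_congr rfl fun k hk => ?_
        rw [Polynomial.coeff_coe, hpc, if_pos (mem_range.1 hk)]
      · intro k hk
        rw [Polynomial.coeff_coe, hpc, if_neg (by simpa using hk), norm_zero]
    have hlow1 : ∀ z : ℂ, ‖z‖ < 1 → (δ + 1 / 2) / 2 ≤ ‖p.eval z‖ := by
      intro z hz
      have hs : Summable (fun n => a n * z ^ n) := by
        refine Summable.of_norm_bounded ha fun n => ?_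
        rw [norm_mul, norm_pow]
        exact mul_le_of_le_one_right (norm_nonneg _) (pow_le_one₀ (norm_nonneg _) hz.le)
      have hs' : Summable (fun n => ‖a (n + N) * z ^ (n + N)‖) := by
        refine Summable.of_nonneg_of_le (fun n => norm_nonneg _) (fun n => ?_)
          ((summable_nat_add_iff N).2 ha)
        rw [norm_mul, norm_pow]
        exact mul_le_of_le_one_right (norm_nonneg _) (pow_le_one₀ (norm_nonneg _) hz.le)
      have h1 := hs.sum_add_tsum_nat_add N
      have h2 : ‖∑' n, a (n + N) * z ^ (n + N)‖ ≤ (δ - 1 / 2) / 2 := by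
        refine (norm_tsum_le_tsum_norm hs').trans ?_
        have h3 : ∑' n, ‖a (n + N) * z ^ (n + N)‖ ≤ ∑' n, ‖a (n + N)‖ := by
          refine hs'.tsum_le_tsum (fun n => ?_) ((summable_nat_add_iff N).2 ha)
          rw [norm_mul, norm_pow]
          exact mul_le_of_le_one_right (norm_nonneg _) (pow_le_one₀ (norm_nonneg _) hz.le)
        have h4 := ha.sum_add_tsum_nat_add N
        have h5 := hN0 N hN
        linarith
      have h3 := hlow z hz
      rw [← h1] at h3
      rw [hev]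
      have h4 := norm_add_le (∑ k ∈ range N, a k * z ^ k) (∑' n, a (n + N) * z ^ (n + N))
      linarith
    have hlow2 : ∀ z : ℂ, ‖z‖ ≤ 1 → (δ + 1 / 2) / 2 ≤ ‖p.eval z‖ := by
      have hcl : IsClosed {z : ℂ | (δ + 1 / 2) / 2 ≤ ‖p.eval z‖} :=
        isClosed_le continuous_const (p.continuous.norm)
      have hsub : Metric.ball (0 : ℂ) 1 ⊆ {z : ℂ | (δ + 1 / 2) / 2 ≤ ‖p.eval z‖} := by
        intro z hz
        exact hlow1 z (by simpa using hz)
      have := closure_minimal hsub hcl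
      rw [closure_ball (0 : ℂ) one_ne_zero] at this
      intro z hz
      exact this (by simpa using hz)
    obtain ⟨ψ, h1, h2, h3⟩ := hC p hpn hlow2
    have hdvd : (PowerSeries.X : PowerSeries ℂ) ^ N ∣ φ - (p : PowerSeries ℂ) := by
      rw [PowerSeries.X_pow_dvd_iff]
      intro m hm
      rw [map_sub, Polynomial.coeff_coe, hpc, if_pos hm, hφ, PowerSeries.coeff_mk, sub_self]
    obtain ⟨R, hR⟩ := hdvd
    have heq : ψ - φ⁻¹ = (PowerSeries.X : PowerSeries ℂ) ^ N * (R * φ⁻¹ * ψ) := by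
      calc ψ - φ⁻¹ = (φ * φ⁻¹) * ψ - φ⁻¹ * ((p : PowerSeries ℂ) * ψ) := by
            rw [hinv, h1, one_mul, mul_one]
        _ = (φ - (p : PowerSeries ℂ)) * (φ⁻¹ * ψ) := by ring
        _ = _ := by rw [hR]; ring
    have hcoef : ∀ k < N, PowerSeries.coeff k φ⁻¹ = PowerSeries.coeff k ψ := by
      intro k hk
      have h4 : (PowerSeries.X : PowerSeries ℂ) ^ N ∣ ψ - φ⁻¹ := ⟨_, heq⟩
      have h5 := (PowerSeries.X_pow_dvd_iff.1 h4) k hk
      rw [map_sub] at h5
      exact (sub_eq_zero.1 h5).symm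
    calc ∑ k ∈ range N, ‖PowerSeries.coeff k φ⁻¹‖ = ∑ k ∈ range N, ‖PowerSeries.coeff k ψ‖ :=
          sum_congr rfl fun k hk => by rw [hcoef k (mem_range.1 hk)]
      _ ≤ nrm ψ := h2.sum_le_tsum _ (fun _ _ => norm_nonneg _)
      _ ≤ C := h3
  have hall : ∀ N, ∑ k ∈ range N, ‖PowerSeries.coeff k φ⁻¹‖ ≤ C := by
    intro N
    refine le_trans ?_ (hcoefb (max N N0) (le_max_right _ _))
    exact sum_le_sum_of_subset_of_nonneg (range_subset_range.2 (le_max_left _ _))
      (fun _ _ _ => norm_nonneg _)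
  have hsumm : Summable (fun n => ‖PowerSeries.coeff n φ⁻¹‖) :=
    summable_of_sum_range_le (fun _ => norm_nonneg _) hall
  refine ⟨fun n => PowerSeries.coeff n φ⁻¹, fun z hz => ?_, hsumm,
    Real.tsum_le_of_sum_range_le (fun _ => norm_nonneg _) hall⟩
  have hs1 : Summable (fun n => ‖a n * z ^ n‖) := by
    refine Summable.of_nonneg_of_le (fun n => norm_nonneg _) (fun n => ?_) ha
    rw [norm_mul, norm_pow]
    exact mul_le_of_le_one_right (norm_nonneg _) (pow_le_one₀ (norm_nonneg _) hz.le)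
  have hs2 : Summable (fun n => ‖PowerSeries.coeff n φ⁻¹ * z ^ n‖) := by
    refine Summable.of_nonneg_of_le (fun n => norm_nonneg _) (fun n => ?_) hsumm
    rw [norm_mul, norm_pow]
    exact mul_le_of_le_one_right (norm_nonneg _) (pow_le_one₀ (norm_nonneg _) hz.le)
  rw [tsum_mul_tsum_eq_tsum_sum_antidiagonal_of_summable_norm hs1 hs2]
  have h5 : ∀ n, ∑ kl ∈ antidiagonal n, a kl.1 * z ^ kl.1 * (PowerSeries.coeff kl.2 φ⁻¹ * z ^ kl.2) =
      (if n = 0 then 1 else 0) * z ^ n := by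
    intro n
    have h6 := congrArg (PowerSeries.coeff n) hinv
    rw [PowerSeries.coeff_mul, PowerSeries.coeff_one] at h6
    rw [← h6, sum_mul]
    refine sum_congr rfl fun kl hkl => ?_
    rw [HasAntidiagonal.mem_antidiagonal] at hkl
    rw [← hkl, pow_add, hφ, PowerSeries.coeff_mk]
    ring
  simp only [h5]
  rw [tsum_eq_single 0]
  · simp
  · intro n hn
    rw [if_neg hn, zero_mul]

end Q257.WA
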