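import Pool.Agent.Q257.WA.Inv

/-!
Lower bound: polynomials with small absolute value on the disc and independent powers.
-/

set_option autoImplicit false

namespace Q257.WA

open Finset Filter

section

variable {B : Type} [NormedCommRing B] [NormedAlgebra ℂ B] (w : WAlg B)

lemma norm_inj {ι : Type} (S : Finset ι) (e : ι → ℕ) (he : Set.InjOn e S) (c : ι → ℂ) :
    ‖∑ i ∈ S, c i • w.τ (e i : ℤ)‖ = ∑ i ∈ S, ‖c i‖ := by
  classical
  have h := w.norm_sum_nat (S.image e) (fun n => ∑ i ∈ S.filter (fun i => e i = n), c i)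
  rw [sum_image he, sum_image he] at h
  have h2 : ∀ i ∈ S, ∑ j ∈ S.filter (fun j => e j = e i), c j = c i := by
    intro i hi
    have : S.filter (fun j => e j = e i) = {i} := by
      ext j
      rw [mem_filter, mem_singleton]
      constructor
      · rintro ⟨h3, h4⟩
        exact he h3 hi h4
      · rintro rfl
        exact ⟨hi, rfl⟩
    rw [this, sum_singleton]
  rw [sum_congr rfl (fun i hi => by rw [h2 i hi]),
    sum_congr (g := fun i => ‖c i‖) rfl (fun i hi => by rw [h2 i hi])] at h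
  exact h

lemma tau_pow (m : ℤ) (k : ℕ) : w.τ m ^ k = w.τ (k * m) := by
  induction k with
  | zero => rw [pow_zero]; simp [w.τ_zero]
  | succ k ih =>
    rw [pow_succ, ih, ← w.τ_add]
    congr 1
    push_cast
    ring

lemma aeval_tau (m : ℤ) (p : Polynomial ℂ) (L : ℕ) (hL : p.natDegree < L) :
    Polynomial.aeval (w.τ m) p = ∑ d : Fin L, p.coeff d • w.τ (d * m) := by
  rw [Polynomial.aeval_eq_sum_range' hL, ← Fin.sum_univ_eq_sum_range (fun d => p.coeff d • w.τ m ^ d)]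
  simp only [tau_pow]

lemma norm_aeval_tau (p : Polynomial ℂ) : ‖Polynomial.aeval (w.τ 1) p‖ = nrm (p : PowerSeries ℂ) := by
  rw [nrm_poly, Polynomial.aeval_eq_sum_range, ← w.norm_sum_nat]
  simp only [tau_pow, mul_one]

lemma norm_tau_mul (m : ℤ) (y : B) : ‖w.τ m * y‖ = ‖y‖ := by
  have ht : ∀ m, ‖w.τ m‖ = 1 := by
    intro m
    have := w.norm_sum {m} (fun _ => 1)
    simpa using this
  apply le_antisymm
  · refine (norm_mul_le _ _).trans ?_
    rw [ht, one_mul]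
  · have h : y = w.τ (-m) * (w.τ m * y) := by
      rw [← mul_assoc, ← w.τ_add, neg_add_cancel, w.τ_zero, one_mul]
    calc ‖y‖ = ‖w.τ (-m) * (w.τ m * y)‖ := by rw [← h]
      _ ≤ ‖w.τ (-m)‖ * ‖w.τ m * y‖ := norm_mul_le _ _
      _ = ‖w.τ m * y‖ := by rw [ht, one_mul]

lemma norm_prod_sep (L r : ℕ) (c : Fin L → ℂ) :
    ‖∏ i : Fin r, ∑ d : Fin L, c d • w.τ ((d : ℕ) * (L : ℤ) ^ (i : ℕ))‖ = (∑ d, ‖c d‖) ^ r := by
  classical
  rw [Finset.prod_univ_sum, Fintype.piFinset_univ]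
  have h1 : ∀ x : Fin r → Fin L, ∏ i : Fin r, c (x i) • w.τ (((x i : Fin L) : ℕ) * (L : ℤ) ^ (i : ℕ)) =
      (∏ i, c (x i)) • w.τ (((finFunctionFinEquiv x : Fin (L ^ r)) : ℕ) : ℤ) := by
    intro x
    rw [finFunctionFinEquiv_apply]
    have : ∀ s : Finset (Fin r), ∏ i ∈ s, c (x i) • w.τ (((x i : Fin L) : ℕ) * (L : ℤ) ^ (i : ℕ)) =
        (∏ i ∈ s, c (x i)) • w.τ ((∑ i ∈ s, ((x i : Fin L) : ℕ) * L ^ (i : ℕ) : ℕ) : ℤ) := by
      intro s
      induction s using Finset.induction_on with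
      | empty => simp [w.τ_zero]
      | insert a s ha ih =>
        rw [prod_insert ha, prod_insert ha, sum_insert ha, ih, smul_mul_smul_comm, ← w.τ_add]
        push_cast
        rfl
    exact this univ
  rw [sum_congr rfl (fun x _ => h1 x), norm_inj w univ
    (fun x => ((finFunctionFinEquiv x : Fin (L ^ r)) : ℕ))
    (fun x _ y _ hxy => finFunctionFinEquiv.injective (Fin.ext hxy))]
  have h2 := (Finset.prod_univ_sum (fun _ : Fin r => (univ : Finset (Fin L)))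
    (fun _ d => ‖c d‖)).symm
  rw [Fintype.piFinset_univ, prod_const, Finset.card_univ, Fintype.card_fin] at h2
  rw [← h2]
  exact sum_congr rfl fun x _ => norm_prod _ _

/-- the basic quadratic polynomial -/
noncomputable def Qp (s : ℝ) : Polynomial ℂ :=
  Polynomial.C ((1 - s : ℝ) : ℂ) * Polynomial.X +
    Polynomial.C ((s / 2 : ℝ) * Complex.I) * (1 + Polynomial.X ^ 2)

lemma Qp_deg (s : ℝ) : (Qp s).natDegree ≤ 2 := by
  unfold Qp
  compute_degree

lemma aeval_Qp (s : ℝ) : Polynomial.aeval (w.τ 1) (Qp s) =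
    ((1 - s : ℝ) : ℂ) • w.τ 1 + ((s / 2 : ℝ) * Complex.I) • (1 + w.τ 2) := by
  unfold Qp
  rw [map_add, map_mul, map_mul, map_add, map_one, map_pow, Polynomial.aeval_X, Polynomial.aeval_C,
    Polynomial.aeval_C, tau_pow, Algebra.smul_def, Algebra.smul_def]
  norm_num

lemma pow_struct (s : ℝ) (hs : 0 ≤ s) (hs1 : s ≤ 1) (k : ℕ) : ∃ (A D : ℝ) (e : B),
    (Polynomial.aeval (w.τ 1) (Qp s)) ^ k = (A : ℂ) • w.τ k +
      ((D : ℂ) * ((s / 2 : ℝ) * Complex.I)) • (w.τ (k - 1) + w.τ (k + 1)) + e ∧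
    0 ≤ A ∧ 0 ≤ D ∧ D ≤ k ∧ 1 - (k : ℝ) ^ 2 * s ^ 2 ≤ A + s * D ∧ A ≤ 1 ∧
    ‖e‖ ≤ (k : ℝ) ^ 2 * s ^ 2 := by
  have ht : ∀ m, ‖w.τ m‖ = 1 := by
    intro m
    have := w.norm_sum {m} (fun _ => 1)
    simpa using this
  have hone : ‖(1 : B)‖ = 1 := by rw [← w.τ_zero]; exact ht 0
  have hI : ‖((s / 2 : ℝ) * Complex.I : ℂ)‖ = s / 2 := by
    rw [norm_mul, Complex.norm_I, mul_one, Complex.norm_real, Real.norm_of_nonneg (by positivity)]
  have hq : ‖Polynomial.aeval (w.τ 1) (Qp s)‖ ≤ 1 := by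
    rw [aeval_Qp]
    refine (norm_add_le _ _).trans ?_
    rw [norm_smul, norm_smul, hI, ht, mul_one, Complex.norm_real,
      Real.norm_of_nonneg (by linarith : (0 : ℝ) ≤ 1 - s)]
    have := norm_add_le (1 : B) (w.τ 2)
    rw [hone, ht] at this
    nlinarith
  induction k with
  | zero =>
    refine ⟨1, 0, 0, ?_, zero_le_one, le_rfl, ?_, ?_, le_rfl, ?_⟩
    · simp [w.τ_zero]
    · simp
    · simp
    · simp
  | succ k ih =>
    obtain ⟨A, D, e, h1, h2, h3, h4, h5, h5', h6⟩ := ih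
    refine ⟨(1 - s) * A, (1 - s) * D + A, e * Polynomial.aeval (w.τ 1) (Qp s) +
      ((D : ℂ) * ((s / 2 : ℝ) * Complex.I) ^ 2) • ((w.τ (k - 1) + w.τ (k + 1)) * (1 + w.τ 2)),
      ?_, ?_, ?_, ?_, ?_, ?_, ?_⟩
    · have key : ((A : ℂ) • w.τ k + ((D : ℂ) * ((s / 2 : ℝ) * Complex.I)) •
          (w.τ ((k : ℤ) - 1) + w.τ ((k : ℤ) + 1))) * Polynomial.aeval (w.τ 1) (Qp s) =
          (((1 - s) * A : ℝ) : ℂ) • w.τ ((k + 1 : ℕ) : ℤ) +
          (((((1 - s) * D + A : ℝ)) : ℂ) * ((s / 2 : ℝ) * Complex.I)) •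
          (w.τ (((k + 1 : ℕ) : ℤ) - 1) + w.τ (((k + 1 : ℕ) : ℤ) + 1)) +
          ((D : ℂ) * ((s / 2 : ℝ) * Complex.I) ^ 2) •
            ((w.τ ((k : ℤ) - 1) + w.τ ((k : ℤ) + 1)) * (1 + w.τ 2)) := ?_
      · rw [pow_succ, h1, add_mul, key]
        abel
      rw [aeval_Qp]
      have e1 : w.τ ((k + 1 : ℕ) : ℤ) = w.τ k * w.τ 1 := by
        rw [← w.τ_add]; norm_cast
      have e2 : w.τ (((k + 1 : ℕ) : ℤ) - 1) = w.τ k := by
        congr 1; push_cast; ring
      have e3 : w.τ (((k + 1 : ℕ) : ℤ) + 1) = w.τ k * w.τ 2 := by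
        rw [← w.τ_add]; congr 1
      have e4 : w.τ ((k : ℤ) + 1) * w.τ 1 = w.τ k * w.τ 2 := by
        rw [← w.τ_add, ← w.τ_add]; congr 1
      have e5 : w.τ ((k : ℤ) - 1) * w.τ 1 = w.τ k := by
        rw [← w.τ_add]; congr 1; ring
      rw [e1, e2, e3]
      simp only [Algebra.smul_def, map_mul, map_add, map_sub, map_one, map_pow, Complex.ofReal_mul,
        Complex.ofReal_add, Complex.ofReal_sub, Complex.ofReal_one]
      linear_combination (algebraMap ℂ B (D : ℂ) * (algebraMap ℂ B ((s / 2 : ℝ) : ℂ) *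
        algebraMap ℂ B Complex.I) * (1 - algebraMap ℂ B (s : ℂ))) * (e4 + e5)
    · exact mul_nonneg (by linarith) h2
    · have := mul_nonneg (by linarith : (0 : ℝ) ≤ 1 - s) h3
      linarith
    · push_cast
      have h7 : (1 - s) * D ≤ D := by nlinarith
      linarith
    · push_cast
      have h7 : s ^ 2 * D ≤ s ^ 2 * k := mul_le_mul_of_nonneg_left h4 (sq_nonneg s)
      have h8 : 0 ≤ s ^ 2 * (k : ℝ) := by positivity
      nlinarith [sq_nonneg s]
    · nlinarith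
    · refine (norm_add_le _ _).trans ?_
      have h7 : ‖e * Polynomial.aeval (w.τ 1) (Qp s)‖ ≤ (k : ℝ) ^ 2 * s ^ 2 := by
        refine (norm_mul_le _ _).trans ?_
        have := mul_le_mul h6 hq (norm_nonneg _) (by positivity)
        rwa [mul_one] at this
      have h8 : ‖((D : ℂ) * ((s / 2 : ℝ) * Complex.I) ^ 2) •
          ((w.τ ((k : ℤ) - 1) + w.τ ((k : ℤ) + 1)) * (1 + w.τ 2))‖ ≤ k * s ^ 2 := by
        rw [norm_smul, norm_mul, norm_pow, hI, Complex.norm_real, Real.norm_of_nonneg h3]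
        have h9 : ‖(w.τ ((k : ℤ) - 1) + w.τ ((k : ℤ) + 1)) * (1 + w.τ 2)‖ ≤ 2 * 2 := by
          refine (norm_mul_le _ _).trans ?_
          apply mul_le_mul _ _ (norm_nonneg _) (by norm_num)
          · refine (norm_add_le _ _).trans ?_
            rw [ht, ht]; norm_num
          · refine (norm_add_le _ _).trans ?_
            rw [ht, hone]; norm_num
        calc D * (s / 2) ^ 2 * ‖(w.τ ((k : ℤ) - 1) + w.τ ((k : ℤ) + 1)) * (1 + w.τ 2)‖
            ≤ D * (s / 2) ^ 2 * (2 * 2) := mul_le_mul_of_nonneg_left h9 (by positivity)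
          _ = D * s ^ 2 := by ring
          _ ≤ k * s ^ 2 := mul_le_mul_of_nonneg_right h4 (sq_nonneg s)
      rw [Nat.cast_succ]
      nlinarith [sq_nonneg s, mul_nonneg (Nat.cast_nonneg k : (0 : ℝ) ≤ k) (sq_nonneg s)]

lemma pow_low (s : ℝ) (hs : 0 ≤ s) (hs1 : s ≤ 1) (k : ℕ) :
    1 - 2 * (k : ℝ) ^ 2 * s ^ 2 ≤ ‖(Polynomial.aeval (w.τ 1) (Qp s)) ^ k‖ := by
  obtain ⟨A, D, e, h1, h2, h3, h4, h5, h5', h6⟩ := pow_struct w s hs hs1 k
  have hI : ‖((s / 2 : ℝ) * Complex.I : ℂ)‖ = s / 2 := by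
    rw [norm_mul, Complex.norm_I, mul_one, Complex.norm_real, Real.norm_of_nonneg (by positivity)]
  have h7 : ‖(A : ℂ) • w.τ k + ((D : ℂ) * ((s / 2 : ℝ) * Complex.I)) •
      (w.τ ((k : ℤ) - 1) + w.τ ((k : ℤ) + 1))‖ = A + s * D := by
    have := w.norm_sum {(k : ℤ), (k : ℤ) - 1, (k : ℤ) + 1}
      (fun n => if n = k then (A : ℂ) else (D : ℂ) * ((s / 2 : ℝ) * Complex.I))
    rw [sum_insert (by simp only [mem_insert, mem_singleton]; omega), sum_insert (by
        rw [mem_singleton]; omega), sum_singleton,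
      sum_insert (by simp only [mem_insert, mem_singleton]; omega), sum_insert (by
        rw [mem_singleton]; omega), sum_singleton, if_pos rfl, if_neg (by omega),
      if_neg (by omega), norm_mul, hI, Complex.norm_real, Complex.norm_real,
      Real.norm_of_nonneg h2, Real.norm_of_nonneg h3] at this
    rw [smul_add, this]
    ring
  rw [h1]
  have h8 := norm_sub_le_norm_add ((A : ℂ) • w.τ k + ((D : ℂ) * ((s / 2 : ℝ) * Complex.I)) •
      (w.τ ((k : ℤ) - 1) + w.τ ((k : ℤ) + 1))) e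
  rw [h7] at h8
  linarith

lemma norm_Qp (s : ℝ) (hs : 0 ≤ s) (hs1 : s ≤ 1) :
    ‖Polynomial.aeval (w.τ 1) (Qp s)‖ = 1 := by
  have hI : ‖((s / 2 : ℝ) * Complex.I : ℂ)‖ = s / 2 := by
    rw [norm_mul, Complex.norm_I, mul_one, Complex.norm_real, Real.norm_of_nonneg (by positivity)]
  have := w.norm_sum {(1 : ℤ), 0, 2}
    (fun n => if n = 1 then ((1 - s : ℝ) : ℂ) else ((s / 2 : ℝ) * Complex.I))
  rw [sum_insert (by simp), sum_insert (by simp), sum_singleton, sum_insert (by simp),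
    sum_insert (by simp), sum_singleton, if_pos rfl, if_neg (by norm_num),
    if_neg (by norm_num), hI, Complex.norm_real,
    Real.norm_of_nonneg (by linarith : (0 : ℝ) ≤ 1 - s), w.τ_zero] at this
  rw [aeval_Qp, smul_add, this]
  ring

end

lemma Qp_sup (s : ℝ) (hs : 0 ≤ s) (hs1 : s ≤ 1 / 2) (z : ℂ) (hz : ‖z‖ ≤ 1) :
    ‖(Qp s).eval z‖ ^ 2 ≤ 1 - s := by
  have hfr : ∀ z ∈ frontier (Metric.ball (0 : ℂ) 1), ‖(Qp s).eval z‖ ≤ Real.sqrt (1 - s) := by
    intro z hz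
    rw [frontier_ball (0 : ℂ) one_ne_zero, mem_sphere_zero_iff_norm] at hz
    apply Real.le_sqrt_of_sq_le
    have h1 : (Qp s).eval z = z * (((1 - s : ℝ) : ℂ) + ((s * z.re : ℝ) : ℂ) * Complex.I) := by
      have h2 : z * (starRingEnd ℂ) z = 1 := by
        rw [Complex.mul_conj, Complex.normSq_eq_norm_sq, hz]
        norm_num
      have h3 : z + (starRingEnd ℂ) z = 2 * z.re := by
        rw [Complex.add_conj]; push_cast; ring
      unfold Qp
      simp only [Polynomial.eval_add, Polynomial.eval_mul, Polynomial.eval_C, Polynomial.eval_X,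
        Polynomial.eval_one, Polynomial.eval_pow]
      push_cast
      linear_combination (-(s : ℂ) / 2 * Complex.I) * h2 + ((s : ℂ) / 2 * Complex.I * z) * h3
    rw [h1, norm_mul, hz, one_mul, ← Complex.normSq_eq_norm_sq, Complex.normSq_add_mul_I]
    have h4 : |z.re| ≤ 1 := hz ▸ Complex.abs_re_le_norm z
    have h5 : z.re ^ 2 ≤ 1 := by
      rw [← sq_abs]
      exact pow_le_one₀ (abs_nonneg _) h4
    nlinarith [sq_nonneg s, mul_le_mul_of_nonneg_left h5 (sq_nonneg s)]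
  have h := Complex.norm_le_of_forall_mem_frontier_norm_le Metric.isBounded_ball
    ((Qp s).differentiable.diffContOnCl) hfr (z := z) (by
      rw [closure_ball (0 : ℂ) one_ne_zero]; simpa using hz)
  calc ‖(Qp s).eval z‖ ^ 2 ≤ Real.sqrt (1 - s) ^ 2 := pow_le_pow_left₀ (norm_nonneg _) h 2
    _ = 1 - s := Real.sq_sqrt (by linarith)

/-- the construction -/
theorem exists_indep {B : Type} [NormedCommRing B] [NormedAlgebra ℂ B] (w : WAlg B) (η : ℝ)
    (hη : 0 < η) (n : ℕ) : ∃ h : Polynomial ℂ, h.coeff 0 = 0 ∧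
    ‖Polynomial.aeval (w.τ 1) h‖ = 1 ∧ (∀ z : ℂ, ‖z‖ ≤ 1 → ‖h.eval z‖ ≤ η) ∧
    ∀ k ≤ n, 1 / 2 ≤ ‖(Polynomial.aeval (w.τ 1) h) ^ k‖ := by
  -- parameters
  obtain ⟨c, hc⟩ := exists_nat_gt (-Real.log (η ^ 2))
  set c' : ℝ := (c : ℝ) + 1 with hc'
  have hcpos : 1 ≤ c' := by
    have : (0 : ℝ) ≤ c := Nat.cast_nonneg c
    linarith
  have hexp : Real.exp (-c') ≤ η ^ 2 := by
    rw [← Real.exp_log (show 0 < η ^ 2 by positivity)]
    apply Real.exp_le_exp.2
    linarith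
  obtain ⟨r, hr⟩ := exists_nat_gt (4 * (n + 1 : ℝ) ^ 2 * c' ^ 2)
  have hn1 : (1 : ℝ) ≤ (n + 1 : ℝ) ^ 2 := by
    have : (0 : ℝ) ≤ n := Nat.cast_nonneg n
    nlinarith
  have hr1 : 4 * c' ^ 2 < r := by
    nlinarith [sq_nonneg c']
  have hrpos : (0 : ℝ) < r := by nlinarith
  have hrc : 2 * c' ≤ r := by nlinarith
  set s : ℝ := c' / r with hs
  have hs0 : 0 ≤ s := by positivity
  have hs2 : s ≤ 1 / 2 := by
    rw [hs, div_le_div_iff₀ hrpos (by norm_num)]
    linarith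
  have hsr : s * r = c' := div_mul_cancel₀ _ hrpos.ne'
  set L := 2 * n + 3 with hL
  set h : Polynomial ℂ := Polynomial.X * ∏ i : Fin r, (Qp s).comp (Polynomial.X ^ (L ^ (i : ℕ)))
    with hh
  have hEh : Polynomial.aeval (w.τ 1) h =
      w.τ 1 * ∏ i : Fin r, Polynomial.aeval (w.τ ((L : ℤ) ^ (i : ℕ))) (Qp s) := by
    rw [hh, map_mul, Polynomial.aeval_X, map_prod]
    congr 1
    refine prod_congr rfl fun i _ => ?_
    rw [Polynomial.aeval_comp, map_pow, Polynomial.aeval_X, tau_pow]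
    congr 2
    push_cast
    rw [mul_one]
  have hpow : ∀ k ≤ n + 1, ‖(Polynomial.aeval (w.τ 1) h) ^ k‖ =
      ‖(Polynomial.aeval (w.τ 1) (Qp s)) ^ k‖ ^ r := by
    intro k hk
    have hdeg : ((Qp s) ^ k).natDegree < L := by
      have := Polynomial.natDegree_pow_le_of_le k (Qp_deg s)
      omega
    rw [hEh, mul_pow, tau_pow, norm_tau_mul, ← prod_pow]
    have h1 : ∀ i : Fin r, (Polynomial.aeval (w.τ ((L : ℤ) ^ (i : ℕ))) (Qp s)) ^ k =
        ∑ d : Fin L, ((Qp s) ^ k).coeff d • w.τ ((d : ℕ) * (L : ℤ) ^ (i : ℕ)) := by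
      intro i
      rw [← map_pow, aeval_tau w _ _ L hdeg]
    rw [prod_congr rfl (fun i _ => h1 i), norm_prod_sep w L r (fun d => ((Qp s) ^ k).coeff d)]
    congr 1
    rw [← map_pow, aeval_tau w _ _ L hdeg]
    have h2 := norm_inj w (univ : Finset (Fin L)) (fun d => (d : ℕ))
      (fun x _ y _ hxy => Fin.ext hxy) (fun d => ((Qp s) ^ k).coeff d)
    simp only [mul_one]
    exact h2.symm
  refine ⟨h, ?_, ?_, ?_, ?_⟩
  · rw [hh, Polynomial.mul_coeff_zero, Polynomial.coeff_X_zero, zero_mul]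
  · have := hpow 1 (by omega)
    rwa [pow_one, pow_one, norm_Qp w s hs0 (by linarith), one_pow] at this
  · intro z hz
    have h1 : ‖h.eval z‖ ^ 2 ≤ η ^ 2 := by
      rw [hh, Polynomial.eval_mul, Polynomial.eval_X, Polynomial.eval_prod, norm_mul, norm_prod,
        mul_pow, ← prod_pow]
      have h2 : ∏ i : Fin r, ‖Polynomial.eval z ((Qp s).comp (Polynomial.X ^ (L ^ (i : ℕ))))‖ ^ 2 ≤
          ∏ _i : Fin r, (1 - s) := by
        apply prod_le_prod (fun i _ => by positivity)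
        intro i _
        rw [Polynomial.eval_comp, Polynomial.eval_pow, Polynomial.eval_X]
        apply Qp_sup s hs0 hs2
        rw [norm_pow]
        exact pow_le_one₀ (norm_nonneg _) hz
      rw [prod_const, Finset.card_univ, Fintype.card_fin] at h2
      have h3 : (1 - s) ^ r ≤ Real.exp (-c') := by
        rw [hs]
        exact Real.one_sub_div_pow_le_exp_neg (by linarith)
      have h4 : ‖z‖ ^ 2 ≤ 1 := pow_le_one₀ (norm_nonneg _) hz
      have h5 : 0 ≤ ∏ i : Fin r,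
          ‖Polynomial.eval z ((Qp s).comp (Polynomial.X ^ (L ^ (i : ℕ))))‖ ^ 2 :=
        prod_nonneg fun i _ => by positivity
      nlinarith
    exact le_of_sq_le_sq h1 hη.le
  · intro k hk
    rw [hpow k (by omega)]
    have h1 := pow_low w s hs0 (by linarith) k
    have hk1 : (k : ℝ) ^ 2 ≤ (n + 1 : ℝ) ^ 2 := by
      apply pow_le_pow_left₀ (Nat.cast_nonneg k)
      have : (k : ℝ) ≤ n := by exact_mod_cast hk
      linarith
    have h2 : 4 * (k : ℝ) ^ 2 * s ^ 2 * r ≤ 1 := by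
      have h3 : 4 * (k : ℝ) ^ 2 * s ^ 2 * r = 4 * (k : ℝ) ^ 2 * c' ^ 2 / r := by
        rw [hs]; field_simp
      rw [h3, div_le_one hrpos]
      nlinarith [sq_nonneg c']
    have hr1' : (1 : ℝ) ≤ r := by nlinarith
    have h3 : 2 * (k : ℝ) ^ 2 * s ^ 2 ≤ 1 / 2 := by
      have : 0 ≤ (k : ℝ) ^ 2 * s ^ 2 := by positivity
      nlinarith
    have h4 : 1 - r * (2 * (k : ℝ) ^ 2 * s ^ 2) ≤ (1 - 2 * (k : ℝ) ^ 2 * s ^ 2) ^ r := by
      have := one_add_mul_le_pow (show (-2 : ℝ) ≤ -(2 * (k : ℝ) ^ 2 * s ^ 2) by linarith) r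
      linarith [this, show (1 + -(2 * (k : ℝ) ^ 2 * s ^ 2)) ^ r =
        (1 - 2 * (k : ℝ) ^ 2 * s ^ 2) ^ r by rw [← sub_eq_add_neg]]
    have h5 : (1 - 2 * (k : ℝ) ^ 2 * s ^ 2) ^ r ≤
        ‖(Polynomial.aeval (w.τ 1) (Qp s)) ^ k‖ ^ r :=
      pow_le_pow_left₀ (by linarith) h1 r
    nlinarith

end Q257.WA
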