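import Pool.Agent.Q257.WA.Char
import Pool.Agent.Q257.WA.Fin

/-!
A bounded sequence of polynomials with norm at most one and absolute value at least `δ > 1 / 2` on the
circle is invertible.
-/

set_option autoImplicit false

namespace Q257.WA

open BoundedContinuousFunction Filter Finset

lemma param (ε : ℝ) (hε : 0 < ε) (hε1 : ε ≤ 1) (K : ℕ) : ∃ L : ℕ, ∃ η' : ℝ, 0 < η' ∧ ∀ η ≤ η',
    (1 - ε ^ 2 / 4) ^ L + η / ε ^ 2 < ((Nat.choose (2 * L) L : ℝ) / 4 ^ L) ^ K := by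
  have hq0 : (0 : ℝ) ≤ 1 - ε ^ 2 / 4 := by nlinarith
  have hq1 : (1 - ε ^ 2 / 4 : ℝ) < 1 := by nlinarith [sq_nonneg ε, sq_pos_of_pos hε]
  have h1 := tendsto_pow_const_mul_const_pow_of_lt_one K hq0 hq1
  have h2 : (0 : ℝ) < 1 / (2 * 3 ^ K) := by positivity
  obtain ⟨L, hL, hL1⟩ := ((h1.eventually (gt_mem_nhds h2)).and (eventually_ge_atTop 1)).exists
  have hL1' : (1 : ℝ) ≤ L := by exact_mod_cast hL1
  set c : ℝ := (1 / (2 * (L : ℝ) + 1)) ^ K with hc
  have hcpos : 0 < c := by positivity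
  have h3 : (1 - ε ^ 2 / 4) ^ L ≤ c / 2 := by
    have h4 : ((2 * (L : ℝ) + 1)) ^ K ≤ 3 ^ K * (L : ℝ) ^ K := by
      rw [← mul_pow]
      apply pow_le_pow_left₀ (by positivity)
      linarith
    have h5 : (1 - ε ^ 2 / 4) ^ L * (2 * (L : ℝ) + 1) ^ K ≤ 1 / 2 := by
      calc (1 - ε ^ 2 / 4) ^ L * (2 * (L : ℝ) + 1) ^ K
          ≤ (1 - ε ^ 2 / 4) ^ L * (3 ^ K * (L : ℝ) ^ K) :=
            mul_le_mul_of_nonneg_left h4 (pow_nonneg hq0 _)
        _ = 3 ^ K * ((L : ℝ) ^ K * (1 - ε ^ 2 / 4) ^ L) := by ring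
        _ ≤ 3 ^ K * (1 / (2 * 3 ^ K)) := mul_le_mul_of_nonneg_left hL.le (by positivity)
        _ = 1 / 2 := by field_simp
    have h6 : c * (2 * (L : ℝ) + 1) ^ K = 1 := by
      rw [hc, ← mul_pow, one_div_mul_cancel (by positivity), one_pow]
    have h7 : 0 < (2 * (L : ℝ) + 1) ^ K := by positivity
    by_contra h8
    push Not at h8
    have h9 : c / 2 * (2 * (L : ℝ) + 1) ^ K < (1 - ε ^ 2 / 4) ^ L * (2 * (L : ℝ) + 1) ^ K :=
      mul_lt_mul_of_pos_right h8 h7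
    nlinarith
  have h4 : c ≤ ((Nat.choose (2 * L) L : ℝ) / 4 ^ L) ^ K := by
    rw [hc]
    apply pow_le_pow_left₀ (by positivity)
    rw [div_le_div_iff₀ (by positivity) (by positivity), one_mul]
    have := Nat.four_pow_le_two_mul_add_one_mul_central_binom L
    have h5 : ((4 ^ L : ℕ) : ℝ) ≤ (((2 * L + 1) * (2 * L).choose L : ℕ) : ℝ) := by exact_mod_cast this
    push_cast at h5
    linarith
  refine ⟨L, ε ^ 2 * c / 4, by positivity, fun η hη => ?_⟩
  have h5 : η / ε ^ 2 ≤ c / 4 := by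
    rw [div_le_iff₀ (by positivity)]
    linarith
  linarith

/-- alignment -/
lemma align (u v : ℂ) : ∃ c : ℂ, ‖c‖ = 1 ∧ ‖u + c * v‖ = ‖u‖ + ‖v‖ := by
  refine ⟨Complex.exp ((u.arg - v.arg : ℝ) * Complex.I), Complex.norm_exp_ofReal_mul_I _, ?_⟩
  have hu := Complex.norm_mul_exp_arg_mul_I u
  have hv := Complex.norm_mul_exp_arg_mul_I v
  generalize u.arg = x at *
  generalize v.arg = y at *
  have h1 : Complex.exp ((x - y : ℝ) * Complex.I) * v =
      ‖v‖ * Complex.exp (x * Complex.I) := by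
    calc Complex.exp ((x - y : ℝ) * Complex.I) * v
        = Complex.exp ((x - y : ℝ) * Complex.I) * (‖v‖ * Complex.exp (y * Complex.I)) := by rw [hv]
      _ = ‖v‖ * Complex.exp (x * Complex.I) := by
        rw [mul_left_comm, ← Complex.exp_add]
        congr 2
        push_cast
        ring
  have h2 : u + Complex.exp ((x - y : ℝ) * Complex.I) * v =
      ((‖u‖ + ‖v‖ : ℝ) : ℂ) * Complex.exp (x * Complex.I) := by
    rw [h1]
    calc u + ‖v‖ * Complex.exp (x * Complex.I)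
        = ‖u‖ * Complex.exp (x * Complex.I) + ‖v‖ * Complex.exp (x * Complex.I) := by rw [hu]
      _ = _ := by push_cast; ring
  rw [h2, norm_mul, Complex.norm_exp_ofReal_mul_I, mul_one,
    Complex.norm_real, Real.norm_of_nonneg (by positivity)]

/-- enumeration of a finite set -/
lemma enum (K : ℕ) (T : Finset ℕ) (h : T.card ≤ K) :
    ∃ (m : Fin K → ℕ) (s : Finset (Fin K)), Set.InjOn m s ∧ s.image m = T := by
  classical
  obtain ⟨e⟩ : Nonempty (T ↪ Fin K) := Function.Embedding.nonempty_of_card_le (by simpa using h)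
  refine ⟨fun j => if hj : ∃ t, e t = j then ((hj.choose : T) : ℕ) else 0, univ.image e, ?_, ?_⟩
  · intro i hi j hj hij
    rw [Finset.mem_coe, mem_image] at hi hj
    obtain ⟨t, -, rfl⟩ := hi
    obtain ⟨t', -, rfl⟩ := hj
    have h1 : ∃ t0, e t0 = e t := ⟨t, rfl⟩
    have h2 : ∃ t0, e t0 = e t' := ⟨t', rfl⟩
    simp only [dif_pos h1, dif_pos h2] at hij
    have h3 : h1.choose = t := e.injective h1.choose_spec
    have h4 : h2.choose = t' := e.injective h2.choose_spec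
    rw [h3, h4] at hij
    rw [Subtype.ext hij]
  · ext x
    rw [mem_image]
    constructor
    · rintro ⟨j, hj, rfl⟩
      rw [mem_image] at hj
      obtain ⟨t, -, rfl⟩ := hj
      have h1 : ∃ t0, e t0 = e t := ⟨t, rfl⟩
      rw [dif_pos h1]
      exact (h1.choose : T).2
    · intro hx
      refine ⟨e ⟨x, hx⟩, mem_image_of_mem _ (mem_univ _), ?_⟩
      have h1 : ∃ t0, e t0 = e ⟨x, hx⟩ := ⟨_, rfl⟩
      rw [dif_pos h1]
      have h3 : h1.choose = ⟨x, hx⟩ := e.injective h1.choose_spec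
      rw [h3]

/-- a window with little mass -/
lemma window (η : ℕ → ℝ) (hη : Antitone η) (N : ℕ) (hN : 0 < N) (s : Finset ℕ) (x : ℕ → ℝ)
    (hx : ∀ k, 0 ≤ x k) (hs : ∑ k ∈ s, x k ≤ 1) :
    ∃ i ∈ range N, ∑ k ∈ s.filter (fun k => η (i + 1) ≤ x k ∧ x k < η i), x k ≤ 1 / N := by
  classical
  have h1 : ∑ i ∈ range N, ∑ k ∈ s.filter (fun k => η (i + 1) ≤ x k ∧ x k < η i), x k ≤
      ∑ _i ∈ range N, (1 : ℝ) / N := by
    have h2 : ∑ _i ∈ range N, (1 : ℝ) / N = 1 := by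
      rw [sum_const, card_range, nsmul_eq_mul]
      field_simp
    rw [h2]
    refine le_trans ?_ hs
    simp only [sum_filter]
    rw [sum_comm]
    refine sum_le_sum fun k _ => ?_
    rw [← sum_filter, sum_const, nsmul_eq_mul]
    have h3 : ((range N).filter (fun i => η (i + 1) ≤ x k ∧ x k < η i)).card ≤ 1 := by
      rw [card_le_one]
      intro i hi j hj
      rw [mem_filter] at hi hj
      by_contra hij
      rcases lt_or_gt_of_ne hij with h | h
      · have := hη (show i + 1 ≤ j from h)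
        linarith [hi.2.1, hj.2.2]
      · have := hη (show j + 1 ≤ i from h)
        linarith [hj.2.1, hi.2.2]
    have h4 : (((range N).filter (fun i => η (i + 1) ≤ x k ∧ x k < η i)).card : ℝ) ≤ 1 := by
      exact_mod_cast h3
    nlinarith [hx k]
  exact Finset.exists_le_of_sum_le ⟨0, mem_range.2 hN⟩ h1

variable {B : Type} [NormedCommRing B] [NormedAlgebra ℂ B]

lemma WAlg.norm_sum_nat (w : WAlg B) (s : Finset ℕ) (c : ℕ → ℂ) :
    ‖∑ k ∈ s, c k • w.τ (k : ℤ)‖ = ∑ k ∈ s, ‖c k‖ := by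
  have h := w.norm_sum (s.map Nat.castEmbedding) (fun n => c n.toNat)
  rw [sum_map, sum_map] at h
  simpa using h

variable [CompleteSpace B]

theorem unit_of_lower (w : WAlg B) (D : ℕ → ℕ) (a : ℕ → ℕ → ℂ)
    (ha : ∀ n, ∑ k ∈ range (D n), ‖a n k‖ ≤ 1) (δ : ℝ) (hδ : 1 / 2 < δ)
    (hlow : ∀ (n : ℕ) (z : ℂ), ‖z‖ = 1 → δ ≤ ‖∑ k ∈ range (D n), a n k * z ^ k‖)
    (hb : ∀ n, ‖∑ k ∈ range (D n), a n k • w.τ (k : ℤ)‖ ≤ 1) :
    IsUnit (sq (fun n => ∑ k ∈ range (D n), a n k • w.τ (k : ℤ)) 1 hb) := by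
  classical
  by_contra hcon
  obtain ⟨Φ, hΦ⟩ := WeakDual.CharacterSpace.exists_apply_eq_zero hcon
  set F := sq (fun n => ∑ k ∈ range (D n), a n k • w.τ (k : ℤ)) 1 hb with hF
  -- parameters
  obtain ⟨ε, hε, hε1, hεδ⟩ : ∃ ε : ℝ, 0 < ε ∧ ε ≤ 1 ∧ 1 / 2 + 5 * ε < δ := by
    refine ⟨min 1 ((δ - 1 / 2) / 6), lt_min one_pos (by linarith), min_le_left _ _, ?_⟩
    have := min_le_right 1 ((δ - 1 / 2) / 6)
    linarith
  obtain ⟨N, hN⟩ := exists_nat_gt (1 / ε)
  have hNpos : (0 : ℝ) < N := lt_trans (by positivity) hN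
  have hN0 : 0 < N := by exact_mod_cast hNpos
  have hN1 : 1 / (N : ℝ) ≤ ε := by
    rw [div_le_iff₀ hNpos]
    rw [div_lt_iff₀ hε] at hN
    linarith
  choose Lf ηf hηf hpar using param ε hε hε1
  obtain ⟨η, hη0, hηs⟩ : ∃ η : ℕ → ℝ, η 0 = 1 ∧ ∀ i, η (i + 1) = min (η i) (ηf ⌈1 / η i⌉₊) :=
    ⟨fun i => Nat.rec 1 (fun _ x => min x (ηf ⌈1 / x⌉₊)) i, rfl, fun i => rfl⟩
  have hηpos : ∀ i, 0 < η i := by
    intro i
    induction i with
    | zero => rw [hη0]; exact one_pos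
    | succ i ih => rw [hηs]; exact lt_min ih (hηf _)
  have hηanti : Antitone η := antitone_nat_of_succ_le (fun i => by rw [hηs]; exact min_le_left _ _)
  -- the window
  have hwin : ∀ n, ∃ i ∈ range N, ∑ k ∈ (range (D n)).filter
      (fun k => η (i + 1) ≤ ‖a n k‖ ∧ ‖a n k‖ < η i), ‖a n k‖ ≤ 1 / N := fun n =>
    window η hηanti N hN0 _ _ (fun k => norm_nonneg _) (ha n)
  have hwin2 : ∃ i ∈ ((range N : Finset ℕ) : Set ℕ), ∀ᶠ (n : ℕ) in ((chU w Φ : Ultrafilter ℕ) : Filter ℕ),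
      (∑ k ∈ (range (D n)).filter (fun k : ℕ => η (i + 1) ≤ ‖a n k‖ ∧ ‖a n k‖ < η i), ‖a n k‖) ≤
        1 / (N : ℝ) := by
    refine (Ultrafilter.eventually_exists_mem_iff (f := chU w Φ)
      (Finset.finite_toSet (range N))).1 (Filter.Eventually.of_forall fun n => ?_)
    obtain ⟨i, h1, h2⟩ := hwin n
    exact ⟨i, Finset.mem_coe.2 h1, h2⟩
  obtain ⟨i, -, hi⟩ := hwin2
  set K := ⌈1 / η i⌉₊ with hK
  set L := Lf K with hL
  have hη1 : η (i + 1) ≤ ηf K := by rw [hηs]; exact min_le_right _ _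
  have hparK := hpar K (η (i + 1)) hη1
  -- the three parts
  set T : ℕ → Finset ℕ := fun n => (range (D n)).filter (fun k => η i ≤ ‖a n k‖) with hT
  set W : ℕ → Finset ℕ := fun n => (range (D n)).filter
    (fun k => η (i + 1) ≤ ‖a n k‖ ∧ ‖a n k‖ < η i) with hW
  set R : ℕ → Finset ℕ := fun n => (range (D n)).filter (fun k => ‖a n k‖ < η (i + 1)) with hR
  have hsplit : ∀ (n : ℕ) (E : Type) [AddCommMonoid E] (g : ℕ → E), ∑ k ∈ range (D n), g k =
      ∑ k ∈ T n, g k + ∑ k ∈ W n, g k + ∑ k ∈ R n, g k := by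
    intro n E _ g
    rw [← sum_filter_add_sum_filter_not (range (D n)) (fun k => η i ≤ ‖a n k‖), add_assoc]
    congr 1
    rw [← sum_filter_add_sum_filter_not ((range (D n)).filter (fun k => ¬ η i ≤ ‖a n k‖))
      (fun k => η (i + 1) ≤ ‖a n k‖), filter_filter, filter_filter]
    congr 1
    · apply sum_congr _ (fun _ _ => rfl)
      apply filter_congr
      intro k _
      rw [not_le]
      tauto
    · apply sum_congr _ (fun _ _ => rfl)
      apply filter_congr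
      intro k _
      rw [not_le, not_le]
      constructor
      · exact fun h => h.2
      · intro h
        exact ⟨h.trans_le (hηanti (Nat.le_succ i)), h⟩
  have hle : ∀ (n : ℕ), ∑ k ∈ T n, ‖a n k‖ + ∑ k ∈ W n, ‖a n k‖ + ∑ k ∈ R n, ‖a n k‖ ≤ 1 := by
    intro n
    rw [← hsplit n ℝ (fun k => ‖a n k‖)]
    exact ha n
  have hnn : ∀ (s : Finset ℕ) (n : ℕ), 0 ≤ ∑ k ∈ s, ‖a n k‖ := fun s n =>
    sum_nonneg fun k _ => norm_nonneg _
  have hTb : ∀ n, ‖∑ k ∈ T n, a n k • w.τ (k : ℤ)‖ ≤ 1 := fun n => by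
    rw [w.norm_sum_nat]; linarith [hle n, hnn (W n) n, hnn (R n) n]
  have hWb : ∀ n, ‖∑ k ∈ W n, a n k • w.τ (k : ℤ)‖ ≤ 1 := fun n => by
    rw [w.norm_sum_nat]; linarith [hle n, hnn (T n) n, hnn (R n) n]
  have hRb : ∀ n, ‖∑ k ∈ R n, a n k • w.τ (k : ℤ)‖ ≤ 1 := fun n => by
    rw [w.norm_sum_nat]; linarith [hle n, hnn (T n) n, hnn (W n) n]
  set G := sq (fun n => ∑ k ∈ T n, a n k • w.τ (k : ℤ)) 1 hTb with hG
  set E := sq (fun n => ∑ k ∈ W n, a n k • w.τ (k : ℤ)) 1 hWb with hE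
  set H := sq (fun n => ∑ k ∈ R n, a n k • w.τ (k : ℤ)) 1 hRb with hH
  have hFGEH : F = G + E + H := by
    ext n
    exact hsplit n B (fun k => a n k • w.τ (k : ℤ))
  have hsum0 : Φ G + Φ E + Φ H = 0 := by rw [← map_add, ← map_add, ← hFGEH]; exact hΦ
  -- (1)
  have b1 : ‖Φ E‖ ≤ 1 / N := by
    apply char_bound w Φ E _ (by positivity)
    filter_upwards [hi] with n hn
    show ‖∑ k ∈ W n, a n k • w.τ (k : ℤ)‖ ≤ 1 / N
    rw [w.norm_sum_nat]
    exact hn
  -- (2)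
  have b2 : ‖Φ G‖ + ‖Φ H‖ ≤ 1 := by
    obtain ⟨c, hc, hc2⟩ := align (Φ G) (Φ H)
    rw [← hc2, ← smul_eq_mul, ← map_smul, ← map_add]
    refine (char_le w Φ _).trans ?_
    rw [BoundedContinuousFunction.norm_le zero_le_one]
    intro n
    show ‖∑ k ∈ T n, a n k • w.τ (k : ℤ) + c • ∑ k ∈ R n, a n k • w.τ (k : ℤ)‖ ≤ 1
    refine (norm_add_le _ _).trans ?_
    rw [norm_smul, hc, one_mul, w.norm_sum_nat, w.norm_sum_nat]
    linarith [hle n, hnn (W n) n]
  -- (3)
  have hcard : ∀ n, (T n).card ≤ K := by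
    intro n
    have h1 : (T n).card • η i ≤ ∑ k ∈ T n, ‖a n k‖ :=
      card_nsmul_le_sum _ _ _ (fun k hk => (mem_filter.1 hk).2)
    rw [nsmul_eq_mul] at h1
    have h2 : ((T n).card : ℝ) ≤ 1 / η i := by
      rw [le_div_iff₀ (hηpos i)]
      linarith [hle n, hnn (W n) n, hnn (R n) n]
    have h3 : ((T n).card : ℝ) ≤ K := h2.trans (Nat.le_ceil _)
    exact_mod_cast h3
  choose m s hms hmT using fun n => enum K (T n) (hcard n)
  set α : Fin K → ℕ → ℂ := fun j n => if j ∈ s n then a n (m n j) else 0 with hα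
  have hsumT : ∀ (n : ℕ) (E : Type) [AddCommMonoid E] (g : ℕ → E),
      ∑ k ∈ T n, g k = ∑ j, if j ∈ s n then g (m n j) else 0 := by
    intro n E _ g
    rw [← hmT n, sum_image (hms n), sum_ite_mem, univ_inter]
  have hαsum : ∀ n, ∑ j, ‖α j n‖ ≤ 1 := by
    intro n
    have h1 := hsumT n ℝ (fun k => ‖a n k‖)
    have h2 : ∑ j, ‖α j n‖ = ∑ j, if j ∈ s n then ‖a n (m n j)‖ else 0 := by
      refine sum_congr rfl fun j _ => ?_
      rw [hα]
      simp only
      split_ifs <;> simp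
    rw [h2, ← h1]
    linarith [hle n, hnn (W n) n, hnn (R n) n]
  have hα1 : ∀ j n, ‖α j n‖ ≤ 1 := fun j n =>
    (single_le_sum (f := fun j => ‖α j n‖) (fun j _ => norm_nonneg _) (mem_univ j)).trans (hαsum n)
  have hαsmul : ∀ (n : ℕ) (E : Type) [AddCommMonoid E] [Module ℂ E] (g : ℕ → E),
      ∑ k ∈ T n, a n k • g k = ∑ j, α j n • g (m n j) := by
    intro n E _ _ g
    rw [hsumT n E (fun k => a n k • g k)]
    refine sum_congr rfl fun j _ => ?_
    rw [hα]
    simp only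
    split_ifs <;> simp
  set ζ : Fin K → ℂ := fun j => Φ (Zm w (fun n => (m n j : ℤ))) with hζ
  set β : Fin K → ℂ := fun j => Φ (sc w (α j) 1 (hα1 j)) with hβ
  have hΦG : Φ G = ∑ j, β j * ζ j := by
    have h1 : G = ∑ j, sc w (α j) 1 (hα1 j) * Zm w (fun n => (m n j : ℤ)) := by
      ext n
      rw [BoundedContinuousFunction.sum_apply]
      show ∑ k ∈ T n, a n k • w.τ (k : ℤ) = _
      rw [hαsmul n B (fun k => w.τ (k : ℤ))]
      refine sum_congr rfl fun j _ => ?_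
      show _ = (α j n • (1 : B)) * w.τ (m n j : ℤ)
      rw [smul_mul_assoc, one_mul]
    rw [h1, map_sum]
    refine sum_congr rfl fun j _ => ?_
    rw [map_mul]
  have hev1 : ∀ᶠ n in (chU w Φ : Filter ℕ), ∀ j, ‖α j n - β j‖ ≤ ε / (K + 1) := by
    rw [Filter.eventually_all]
    intro j
    exact char_sc w Φ (α j) 1 (hα1 j) _ (by positivity)
  have hev2 := chi_rel w Φ (fun j n => (m n j : ℤ)) L
  obtain ⟨n, ⟨hn1, hn2⟩, hn3⟩ := ((hev1.and hev2).and hi).exists
  obtain ⟨z, hz, hz1, hz2⟩ := finite_claim (fun j => (m n j : ℤ)) ζ L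
    (fun j => chi_norm w Φ _) hn2 (D n) (fun k => if ‖a n k‖ < η (i + 1) then a n k else 0)
    (η (i + 1)) (fun k => by
      split_ifs with h
      · exact h.le
      · rw [norm_zero]; exact (hηpos _).le) (by
      refine le_trans (sum_le_sum fun k _ => ?_) (ha n)
      split_ifs with h
      · exact le_rfl
      · rw [norm_zero]; exact norm_nonneg _) ε hε hε1 hparK
  have b3 : δ ≤ ‖Φ G‖ + 3 * ε + 1 / N := by
    have h1 := hlow n z hz
    have h2 := hsplit n ℂ (fun k => a n k * z ^ k)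
    have h3 : ∑ k ∈ R n, a n k * z ^ k =
        ∑ k ∈ range (D n), (if ‖a n k‖ < η (i + 1) then a n k else 0) * z ^ k := by
      rw [hR]
      simp only
      rw [sum_filter]
      refine sum_congr rfl fun k _ => ?_
      split_ifs <;> simp
    have h4 : ‖∑ k ∈ W n, a n k * z ^ k‖ ≤ 1 / N := by
      refine (norm_sum_le _ _).trans (le_trans (le_of_eq ?_) hn3)
      refine sum_congr rfl fun k _ => ?_
      rw [norm_mul, norm_pow, hz, one_pow, mul_one]
    have h5 : ∑ k ∈ T n, a n k * z ^ k = ∑ j, α j n * z ^ (m n j) := by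
      have := hαsmul n ℂ (fun k => z ^ k)
      simpa [smul_eq_mul] using this
    have h6 : ‖∑ j, α j n * z ^ (m n j) - ∑ j, β j * ζ j‖ ≤ 2 * ε := by
      have h7 : ∑ j, α j n * z ^ (m n j) - ∑ j, β j * ζ j =
          ∑ j, α j n * (z ^ (m n j) - ζ j) + ∑ j, (α j n - β j) * ζ j := by
        rw [← sum_sub_distrib, ← sum_add_distrib]
        refine sum_congr rfl fun j _ => ?_
        ring
      rw [h7]
      have h8 : ‖∑ j, α j n * (z ^ (m n j) - ζ j)‖ ≤ ε := by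
        refine (norm_sum_le _ _).trans ?_
        calc ∑ j, ‖α j n * (z ^ (m n j) - ζ j)‖ ≤ ∑ j, ‖α j n‖ * ε := by
              refine sum_le_sum fun j _ => ?_
              rw [norm_mul]
              have := hz1 j
              rw [zpow_natCast] at this
              exact mul_le_mul_of_nonneg_left this (norm_nonneg _)
          _ = (∑ j, ‖α j n‖) * ε := by rw [sum_mul]
          _ ≤ 1 * ε := mul_le_mul_of_nonneg_right (hαsum n) hε.le
          _ = ε := one_mul _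
      have h9 : ‖∑ j, (α j n - β j) * ζ j‖ ≤ ε := by
        refine (norm_sum_le _ _).trans ?_
        calc ∑ j, ‖(α j n - β j) * ζ j‖ ≤ ∑ _j : Fin K, ε / (K + 1) := by
              refine sum_le_sum fun j _ => ?_
              rw [norm_mul, show ‖ζ j‖ = 1 from chi_norm w Φ _, mul_one]
              exact hn1 j
          _ = K * (ε / (K + 1)) := by rw [sum_const, Finset.card_univ, Fintype.card_fin, nsmul_eq_mul]
          _ ≤ ε := by
              rw [← mul_div_assoc, div_le_iff₀ (by positivity)]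
              nlinarith [(Nat.cast_nonneg K : (0 : ℝ) ≤ K)]
      calc _ ≤ _ := norm_add_le _ _
        _ ≤ ε + ε := add_le_add h8 h9
        _ = 2 * ε := by ring
    rw [h2, h5, h3] at h1
    have h7 : ‖∑ j, α j n * z ^ (m n j)‖ ≤ ‖Φ G‖ + 2 * ε := by
      rw [hΦG]
      have := norm_le_insert' (∑ j, α j n * z ^ (m n j)) (∑ j, β j * ζ j)
      linarith
    have h8 := norm_add₃_le (a := ∑ j, α j n * z ^ (m n j)) (b := ∑ k ∈ W n, a n k * z ^ k)
      (c := ∑ k ∈ range (D n), (if ‖a n k‖ < η (i + 1) then a n k else 0) * z ^ k)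
    linarith
  have b4 : ‖Φ G‖ ≤ ‖Φ E‖ + ‖Φ H‖ := by
    have h1 : Φ G = -(Φ E + Φ H) := by linear_combination hsum0
    rw [h1, norm_neg]
    exact norm_add_le _ _
  linarith

end Q257.WA
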